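import Pool.Agent.Lib.HFC.Defs

/-!
Contraction of edge sets, table driven graph schemes and the general
reduction theorem used for the H-free contraction problem.
-/

open Classical

namespace HFC

/-- Vertices of a scheme graph: a hub, selectors, and gadget vertices. -/
inductive SV (V J C : Type) : Type
  | hub : SV V J C
  | sel : V → SV V J C
  | gad : J → C → SV V J C

/-- The adjacency tables of a scheme with gadget classes `C`. -/
structure Pat (C : Type) where
  /-- adjacency inside one gadget -/
  I : C → C → Prop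
  /-- adjacency between two different gadgets -/
  M : C → C → Prop
  /-- adjacency of the hub to gadget classes -/
  A : C → Prop
  /-- adjacency of a selector to the classes of a gadget it dominates -/
  P : C → Prop
  /-- adjacency of a selector to the classes of a gadget it does not dominate -/
  Q : C → Prop
  /-- the selectors form a clique -/
  T : Prop
  I_symm : ∀ a b, I a b → I b a
  I_irrefl : ∀ a, ¬ I a a
  M_symm : ∀ a b, M a b → M b a

variable {V J C : Type}

/-- Adjacency of the scheme graph, with `B` the hub adjacency and `rel` the domination relation. -/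
def Pat.adj (p : Pat C) (B : C → Prop) (rel : V → J → Prop) : SV V J C → SV V J C → Prop
  | .hub, .hub => False
  | .hub, .sel _ => True
  | .hub, .gad _ c => B c
  | .sel _, .hub => True
  | .sel v, .sel v' => v ≠ v' ∧ p.T
  | .sel v, .gad j c => (rel v j ∧ p.P c) ∨ (¬ rel v j ∧ p.Q c)
  | .gad _ c, .hub => B c
  | .gad j c, .sel v => (rel v j ∧ p.P c) ∨ (¬ rel v j ∧ p.Q c)
  | .gad j c, .gad j' c' => (j = j' ∧ p.I c c') ∨ (j ≠ j' ∧ p.M c c')

/-- The scheme graph. -/
def Pat.graph (p : Pat C) (B : C → Prop) (rel : V → J → Prop) : SimpleGraph (SV V J C) where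
  Adj := p.adj B rel
  symm := ⟨by
    intro a b h
    rcases a with _ | v | ⟨j, c⟩ <;> rcases b with _ | v' | ⟨j', c'⟩ <;>
      simp only [Pat.adj] at h ⊢
    · exact h
    · exact ⟨fun e => h.1 e.symm, h.2⟩
    · exact h
    · exact h
    · exact h
    · rcases h with ⟨h1, h2⟩ | ⟨h1, h2⟩
      · exact Or.inl ⟨h1.symm, p.I_symm _ _ h2⟩
      · exact Or.inr ⟨fun e => h1 e.symm, p.M_symm _ _ h2⟩⟩
  loopless := ⟨by
    intro a h
    cases a <;> simp only [Pat.adj] at h
    · exact h.1 rfl
    · rcases h with ⟨_, h2⟩ | ⟨h1, _⟩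
      · exact p.I_irrefl _ h2
      · exact h1 rfl⟩

section adj
variable (p : Pat C) (B : C → Prop) (rel : V → J → Prop)

@[simp] lemma adj_hub_hub : (p.graph B rel).Adj .hub .hub ↔ False := Iff.rfl
@[simp] lemma adj_hub_sel (v : V) : (p.graph B rel).Adj .hub (.sel v) ↔ True := Iff.rfl
@[simp] lemma adj_hub_gad (j : J) (c : C) : (p.graph B rel).Adj .hub (.gad j c) ↔ B c := Iff.rfl
@[simp] lemma adj_sel_hub (v : V) : (p.graph B rel).Adj (.sel v) .hub ↔ True := Iff.rfl
@[simp] lemma adj_sel_sel (v v' : V) :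
    (p.graph B rel).Adj (.sel v) (.sel v') ↔ v ≠ v' ∧ p.T := Iff.rfl
@[simp] lemma adj_sel_gad (v : V) (j : J) (c : C) :
    (p.graph B rel).Adj (.sel v) (.gad j c) ↔ (rel v j ∧ p.P c) ∨ (¬ rel v j ∧ p.Q c) := Iff.rfl
@[simp] lemma adj_gad_hub (j : J) (c : C) : (p.graph B rel).Adj (.gad j c) .hub ↔ B c := Iff.rfl
@[simp] lemma adj_gad_sel (v : V) (j : J) (c : C) :
    (p.graph B rel).Adj (.gad j c) (.sel v) ↔ (rel v j ∧ p.P c) ∨ (¬ rel v j ∧ p.Q c) := Iff.rfl
@[simp] lemma adj_gad_gad (j j' : J) (c c' : C) :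
    (p.graph B rel).Adj (.gad j c) (.gad j' c') ↔
      (j = j' ∧ p.I c c') ∨ (j ≠ j' ∧ p.M c c') := Iff.rfl

end adj

/-! ### Reachability facts -/

section reach
variable {U : Type}

lemma mk_eq_iff (F : Set (Sym2 U)) (a b : U) :
    Quotient.mk (cset F) a = Quotient.mk (cset F) b ↔ (SimpleGraph.fromEdgeSet F).Reachable a b := by
  rw [Quotient.eq]; rfl

/-- a vertex that is on no edge of `F` is alone in its class. -/
lemma reach_untouched (F : Set (Sym2 U)) (a b : U) (ha : ∀ e ∈ F, a ∉ e)
    (h : (SimpleGraph.fromEdgeSet F).Reachable a b) : a = b := by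
  rcases h with ⟨w⟩
  cases w with
  | nil => rfl
  | cons h' _ =>
    exfalso
    rw [SimpleGraph.fromEdgeSet_adj] at h'
    exact ha _ h'.1 (Sym2.mem_mk_left _ _)

/-- The number of vertices other than `h` in the class of `h` is at most the number of edges. -/
lemma card_reach_le (F : Finset (Sym2 U)) (h : U) (S : Finset U)
    (hS : ∀ v ∈ S, v ≠ h ∧ (SimpleGraph.fromEdgeSet (F : Set (Sym2 U))).Reachable h v) :
    S.card ≤ F.card := by
  set G := SimpleGraph.fromEdgeSet (F : Set (Sym2 U)) with hG
  have key : ∀ v : U, v ∈ S → ∃ w, G.Adj w v ∧ G.dist h w + 1 = G.dist h v := by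
    intro v hv
    obtain ⟨hne, hr⟩ := hS v hv
    obtain ⟨p, hp⟩ := hr.symm.exists_walk_length_eq_dist
    cases p with
    | nil => exact absurd rfl hne
    | @cons _ w _ hadj q =>
      refine ⟨w, hadj.symm, ?_⟩
      have h1 : G.dist w h ≤ q.length := SimpleGraph.dist_le q
      have h2 : q.length + 1 = G.dist v h := by simpa using hp
      have h3 : G.dist v h ≤ G.dist w h + 1 := by
        have : G.Reachable w h := ⟨q⟩
        obtain ⟨p', hp'⟩ := this.exists_walk_length_eq_dist
        have := SimpleGraph.dist_le (SimpleGraph.Walk.cons hadj p')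
        simpa [hp'] using this
      rw [SimpleGraph.dist_comm (u := h) (v := w), SimpleGraph.dist_comm (u := h) (v := v)]
      omega
  choose! pr hpr using key
  refine Finset.card_le_card_of_injOn (fun v => s(pr v, v)) ?_ ?_
  · intro v hv
    have := (hpr v hv).1
    rw [hG, SimpleGraph.fromEdgeSet_adj] at this
    exact this.1
  · intro v hv v' hv' he
    have hv1 := hpr v hv
    have hv2 := hpr v' hv'
    simp only [Sym2.eq, Sym2.rel_iff', Prod.mk.injEq, Prod.swap_prod_mk] at he
    rcases he with ⟨_, h2⟩ | ⟨h1, h2⟩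
    · exact h2
    · exfalso
      have e1 := hv1.2
      have e2 := hv2.2
      rw [h1] at e1
      rw [← h2] at e2
      omega

end reach

end HFC
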