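import Mathlib

/-!
The definitions behind the statement: contraction of edge sets, the two graph problems, their
encoding as bit strings, parameterized problems and FPT reductions between them.
-/

open Classical

namespace HFC

/-! ### Graphs -/

/-- The equivalence relation on the vertices: connected by edges of `F`. -/
def cset {V : Type} (F : Set (Sym2 V)) : Setoid V :=
  (SimpleGraph.fromEdgeSet F).reachableSetoid

/-- The graph obtained from `G` by contracting every edge of `F`: its vertices are the classes of
`cset F`, and two different classes are adjacent if `G` has an edge between them. -/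
def contract {V : Type} (G : SimpleGraph V) (F : Set (Sym2 V)) :
    SimpleGraph (Quotient (cset F)) where
  Adj a b := a ≠ b ∧ ∃ x y, Quotient.mk (cset F) x = a ∧ Quotient.mk (cset F) y = b ∧ G.Adj x y
  symm := ⟨by
    rintro a b ⟨h, x, y, hx, hy, hxy⟩
    exact ⟨h.symm, y, x, hy, hx, hxy.symm⟩⟩
  loopless := ⟨fun a h => h.1 rfl⟩

/-- `G` can be made `H`-free (no induced subgraph isomorphic to `H`) by contracting a set of at most
`k` edges. -/
def Contractible {α V : Type} (H : SimpleGraph α) (G : SimpleGraph V) (k : ℕ) : Prop :=
  ∃ F : Finset (Sym2 V), (F : Set (Sym2 V)) ⊆ G.edgeSet ∧ F.card ≤ k ∧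
    IsEmpty (H ↪g contract G (F : Set (Sym2 V)))

/-- `Γ` has a dominating set with at most `k` vertices. -/
def HasDomSet {W : Type} (Γ : SimpleGraph W) (k : ℕ) : Prop :=
  ∃ D : Finset W, D.card ≤ k ∧ ∀ j, ∃ i ∈ D, i = j ∨ Γ.Adj i j

/-! ### Instances as bit strings -/

/-- The rows of the adjacency matrix of `G`, one after the other. -/
noncomputable def matBits {n : ℕ} (G : SimpleGraph (Fin n)) : List Bool :=
  (List.finRange n).flatMap (fun i => (List.finRange n).map (fun j => decide (G.Adj i j)))

/-- The bit string that encodes the instance `(G, k)`: the number `n` of vertices in unary, a zero,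
the parameter `k` in unary, a zero, and the adjacency matrix of `G`. -/
noncomputable def enc {n : ℕ} (G : SimpleGraph (Fin n)) (k : ℕ) : List Bool :=
  List.replicate n true ++ false :: (List.replicate k true ++ false :: matBits G)

/-- The number of ones at the start of a bit string. -/
def ones : List Bool → ℕ
  | true :: w => ones w + 1
  | _ => 0

/-- The second unary number of a bit string; `kpar (enc G k) = k`. -/
def kpar (w : List Bool) : ℕ := ones (w.drop (ones w + 1))

/-! ### Parameterized problems and reductions -/

/-- A parameterized problem: a set of bit strings and a parameter for every bit string. -/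
structure ParamProblem where
  /-- the yes-instances -/
  lang : Set (List Bool)
  /-- the parameter of an instance -/
  param : List Bool → ℕ

/-- `r` is computed by a Turing machine in time `g (κ w) * p (|w|)` on input `w`, for a computable
function `g` and a polynomial `p`. -/
def FPTComputable (κ : List Bool → ℕ) (r : List Bool → List Bool) : Prop :=
  ∃ tm : Turing.FinTM2, ∃ e₀ : tm.Γ tm.k₀ ≃ Bool, ∃ e₁ : tm.Γ tm.k₁ ≃ Bool,
    ∃ g : ℕ → ℕ, Computable g ∧ ∃ p : Polynomial ℕ, ∀ w : List Bool,
      Nonempty (Turing.TM2OutputsInTime tm (w.map e₀.symm)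
        (some ((r w).map e₁.symm)) (g (κ w) * p.eval w.length))

/-- There is an FPT reduction (parameterized reduction) from `P` to `Q`. -/
def FPTReduces (P Q : ParamProblem) : Prop :=
  ∃ r : List Bool → List Bool, FPTComputable P.param r ∧ (∀ w, w ∈ P.lang ↔ r w ∈ Q.lang) ∧
    ∃ h : ℕ → ℕ, Computable h ∧ ∀ w, Q.param (r w) ≤ h (P.param w)

/-- `r` is computed by a Turing machine in polynomial time. -/
def PolyTime (r : List Bool → List Bool) : Prop :=
  ∃ tm : Turing.FinTM2, ∃ e₀ : tm.Γ tm.k₀ ≃ Bool, ∃ e₁ : tm.Γ tm.k₁ ≃ Bool,
    ∃ p : Polynomial ℕ, ∀ w : List Bool,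
      Nonempty (Turing.TM2OutputsInTime tm (w.map e₀.symm)
        (some ((r w).map e₁.symm)) (p.eval w.length))

/-- There is a polynomial-time reduction from `P` to `Q` that does not increase the parameter. -/
def PolyReduces (P Q : ParamProblem) : Prop :=
  ∃ r : List Bool → List Bool, PolyTime r ∧ (∀ w, w ∈ P.lang ↔ r w ∈ Q.lang) ∧
    ∀ w, Q.param (r w) ≤ P.param w

/-- Dominating Set, parameterized by the solution size. -/
noncomputable def DominatingSet : ParamProblem where
  lang := {w | ∃ (n : ℕ) (G : SimpleGraph (Fin n)) (k : ℕ), w = enc G k ∧ HasDomSet G k}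
  param := kpar

/-- `H`-Free Contraction, parameterized by the number of contracted edges. -/
noncomputable def HFreeContraction {α : Type} (H : SimpleGraph α) : ParamProblem where
  lang := {w | ∃ (n : ℕ) (G : SimpleGraph (Fin n)) (k : ℕ), w = enc G k ∧ Contractible H G k}
  param := kpar

/-- A parameterized problem is W[2]-hard if Dominating Set, parameterized by the solution size, has
an FPT reduction to it. -/
def W2Hard (Q : ParamProblem) : Prop := FPTReduces DominatingSet Q

end HFC
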