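import Pool.Agent.Lib.HFC.Basic

open Classical

namespace HFC

variable {α C W : Type}

/-- Domination relation between selectors (vertices and padding selectors) and gadgets. -/
def domRel (Γ : SimpleGraph W) (R : ℕ) : (W ⊕ Fin R) → (W × Fin R) → Prop
  | .inl i, j => i = j.1 ∨ Γ.Adj i j.1
  | .inr _, _ => False

/-- The instance graph of a plain scheme. -/
def Pat.inst (p : Pat C) (Γ : SimpleGraph W) (R : ℕ) :
    SimpleGraph (SV (W ⊕ Fin R) (W × Fin R) C) :=
  p.graph p.A (domRel Γ R)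

/-- The properties that make a pattern work for `H`. -/
structure Good (H : SimpleGraph α) (p : Pat C) where
  x : α
  δ : {d : α // d ≠ x} → C
  inj : Function.Injective δ
  hI : ∀ d d', p.I (δ d) (δ d') ↔ H.Adj d d'
  hA : ∀ d, p.A (δ d) ↔ H.Adj x d
  hQ : ∀ d, p.Q (δ d) → H.Adj x d
  hQB : ∀ c, p.Q c → p.A c ∨ p.P c
  penal : ∀ t d, p.M t (δ d) → ¬ H.Adj x d →
    ∃ (u : α) (f : H ↪g p.graph (fun c => p.A c ∨ p.M t c) (fun (_ : α) (_ : α) => False)),
      (∀ w, w ≠ u → H.Adj u w) ∧ f u = .hub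
  free : ∀ (V J : Type) (rel : V → J → Prop),
    IsEmpty (H ↪g p.graph (fun c => p.A c ∨ p.P c) rel)

lemma contract_embed {U U' : Type} (G : SimpleGraph U) (F : Set (Sym2 U)) (G' : SimpleGraph U')
    (ψ : U → U')
    (h1 : ∀ a b, (SimpleGraph.fromEdgeSet F).Reachable a b ↔ ψ a = ψ b)
    (h2 : ∀ u u', u ≠ u' → ((∃ x y, ψ x = u ∧ ψ y = u' ∧ G.Adj x y) ↔
      ((∃ x, ψ x = u) ∧ (∃ y, ψ y = u') ∧ G'.Adj u u'))) :
    Nonempty (contract G F ↪g G') := by
  have hl : ∀ a b : U, (cset F) a b → ψ a = ψ b := fun a b h => (h1 a b).1 h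
  let φ : Quotient (cset F) → U' := Quotient.lift ψ hl
  have hφ : ∀ a, φ (Quotient.mk _ a) = ψ a := fun a => rfl
  have hinj : Function.Injective φ := by
    intro a b
    induction a using Quotient.inductionOn with | h a => ?_
    induction b using Quotient.inductionOn with | h b => ?_
    intro h
    rw [hφ, hφ] at h
    exact (mk_eq_iff F a b).2 ((h1 a b).2 h)
  refine ⟨⟨⟨φ, hinj⟩, ?_⟩⟩
  intro a b
  induction a using Quotient.inductionOn with | h a => ?_
  induction b using Quotient.inductionOn with | h b => ?_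
  show G'.Adj (ψ a) (ψ b) ↔ _
  constructor
  · intro h
    have hne : ψ a ≠ ψ b := G'.ne_of_adj h
    obtain ⟨x, y, hx, hy, hxy⟩ := (h2 _ _ hne).2 ⟨⟨a, rfl⟩, ⟨b, rfl⟩, h⟩
    refine ⟨?_, x, y, ?_, ?_, hxy⟩
    · intro e; exact hne ((h1 a b).1 ((mk_eq_iff F a b).1 e))
    · exact (mk_eq_iff F x a).2 ((h1 x a).2 hx)
    · exact (mk_eq_iff F y b).2 ((h1 y b).2 hy)
  · rintro ⟨hne, x, y, hx, hy, hxy⟩
    have hx' : ψ x = ψ a := (h1 x a).1 ((mk_eq_iff F x a).1 hx)
    have hy' : ψ y = ψ b := (h1 y b).1 ((mk_eq_iff F y b).1 hy)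
    have hne' : ψ a ≠ ψ b := fun e => hne ((mk_eq_iff F a b).2 ((h1 a b).2 e))
    exact ((h2 _ _ hne').1 ⟨x, y, hx', hy', hxy⟩).2.2

/-- star contraction: contracting hub with the selectors in `D`. -/
lemma contract_star {V J : Type} (p : Pat C) (rel : V → J → Prop) (D : Finset V)
    (hQB : ∀ c, p.Q c → p.A c ∨ p.P c) (hD : ∀ j, ∃ i ∈ D, rel i j) :
    Nonempty (contract (p.graph p.A rel)
        ((D.image (fun i => s(SV.hub, SV.sel i)) : Finset (Sym2 (SV V J C))) : Set (Sym2 (SV V J C)))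
      ↪g p.graph (fun c => p.A c ∨ p.P c) (fun (v : {v : V // v ∉ D}) j => rel v.1 j)) := by
  set F : Set (Sym2 (SV V J C)) :=
    ((D.image (fun i => s(SV.hub, SV.sel i)) : Finset (Sym2 (SV V J C))) : Set (Sym2 (SV V J C)))
    with hF
  have hFadj : ∀ a b, (SimpleGraph.fromEdgeSet F).Adj a b ↔
      (a = SV.hub ∧ ∃ i ∈ D, b = SV.sel i) ∨ (b = SV.hub ∧ ∃ i ∈ D, a = SV.sel i) := by
    intro a b
    rw [SimpleGraph.fromEdgeSet_adj, hF]
    constructor
    · rintro ⟨hm, hne⟩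
      rw [Finset.mem_coe, Finset.mem_image] at hm
      obtain ⟨i, hi, he⟩ := hm
      rw [Sym2.eq_iff] at he
      rcases he with ⟨e1, e2⟩ | ⟨e1, e2⟩
      · exact Or.inl ⟨e1.symm, i, hi, e2.symm⟩
      · exact Or.inr ⟨e1.symm, i, hi, e2.symm⟩
    · rintro (⟨e1, i, hi, e2⟩ | ⟨e1, i, hi, e2⟩)
      · subst e1; subst e2
        exact ⟨by rw [Finset.mem_coe, Finset.mem_image]; exact ⟨i, hi, rfl⟩, by simp⟩
      · subst e1; subst e2
        exact ⟨by rw [Finset.mem_coe, Finset.mem_image]; exact ⟨i, hi, Sym2.eq_swap⟩, by simp⟩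
  let ψ : SV V J C → SV {v : V // v ∉ D} J C := fun a => match a with
    | .hub => .hub
    | .sel v => if h : v ∈ D then .hub else .sel ⟨v, h⟩
    | .gad j c => .gad j c
  have ψhub : ψ .hub = .hub := rfl
  have ψgad : ∀ j c, ψ (.gad j c) = .gad j c := fun j c => rfl
  have ψselD : ∀ v, v ∈ D → ψ (.sel v) = .hub := fun v hv => by simp [ψ, hv]
  have ψselN : ∀ v (hv : v ∉ D), ψ (.sel v) = .sel ⟨v, hv⟩ := fun v hv => by simp [ψ, hv]
  have inv_hub : ∀ a, ψ a = .hub ↔ a = .hub ∨ ∃ i ∈ D, a = .sel i := by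
    intro a
    rcases a with _ | v | ⟨j, c⟩
    · simp [ψhub]
    · by_cases hv : v ∈ D
      · simp [ψselD v hv, hv]
      · simp [ψselN v hv, hv]
    · simp [ψgad]
  have inv_sel : ∀ a v, ψ a = .sel v ↔ a = .sel v.1 := by
    intro a v
    rcases a with _ | w | ⟨j, c⟩
    · simp [ψhub]
    · by_cases hw : w ∈ D
      · rw [ψselD w hw]
        constructor
        · intro h; cases h
        · intro h; injection h with h; exact absurd (h ▸ hw) v.2
      · rw [ψselN w hw]
        constructor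
        · intro h; injection h with h; rw [← h]
        · intro h; injection h with h; congr 1; exact Subtype.ext h
    · simp [ψgad]
  have inv_gad : ∀ a j c, ψ a = .gad j c ↔ a = .gad j c := by
    intro a j c
    rcases a with _ | w | ⟨j', c'⟩
    · simp [ψhub]
    · by_cases hw : w ∈ D
      · simp [ψselD w hw]
      · simp [ψselN w hw]
    · simp [ψgad]
  refine contract_embed _ F _ ψ ?_ ?_
  · intro a b
    constructor
    · rintro ⟨w⟩
      induction w with
      | nil => rfl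
      | cons h _ ih =>
        rw [← ih]
        rw [hFadj] at h
        rcases h with ⟨e1, i, hi, e2⟩ | ⟨e1, i, hi, e2⟩
        · subst e1; subst e2; rw [ψselD i hi]
        · subst e1; subst e2; rw [ψselD i hi]
    · intro h
      have toHub : ∀ a, ψ a = .hub → (SimpleGraph.fromEdgeSet F).Reachable a .hub := by
        intro a ha
        rcases (inv_hub a).1 ha with e | ⟨i, hi, e⟩
        · subst e; exact SimpleGraph.Reachable.refl _
        · subst e
          exact SimpleGraph.Adj.reachable ((hFadj _ _).2 (Or.inr ⟨rfl, i, hi, rfl⟩))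
      rcases hb : ψ b with _ | v | ⟨j, c⟩
      · exact (toHub a (h.trans hb)).trans (toHub b hb).symm
      · have h1 := (inv_sel a v).1 (h.trans hb)
        have h2 := (inv_sel b v).1 hb
        rw [h1, h2]
      · have h1 := (inv_gad a j c).1 (h.trans hb)
        have h2 := (inv_gad b j c).1 hb
        rw [h1, h2]
  · -- adjacency
    have key : ∀ c j, (∃ x, ψ x = SV.hub ∧ (p.graph p.A rel).Adj x (.gad j c)) ↔
        (p.A c ∨ p.P c) := by
      intro c j
      constructor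
      · rintro ⟨x, hx, hadj⟩
        rcases (inv_hub x).1 hx with e | ⟨i, hi, e⟩
        · subst e; exact Or.inl hadj
        · subst e
          rw [adj_sel_gad] at hadj
          rcases hadj with ⟨_, h⟩ | ⟨_, h⟩
          · exact Or.inr h
          · exact hQB c h
      · rintro (h | h)
        · exact ⟨.hub, rfl, h⟩
        · obtain ⟨i, hi, hr⟩ := hD j
          exact ⟨.sel i, ψselD i hi, by rw [adj_sel_gad]; exact Or.inl ⟨hr, h⟩⟩
    have symmG : ∀ a b, (p.graph p.A rel).Adj a b → (p.graph p.A rel).Adj b a :=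
      fun a b h => h.symm
    intro u u' hne
    rcases u with _ | v | ⟨j, c⟩ <;> rcases u' with _ | v' | ⟨j', c'⟩
    · exact absurd rfl hne
    · constructor
      · rintro ⟨x, y, _, hy, _⟩
        exact ⟨⟨.hub, rfl⟩, ⟨y, hy⟩, trivial⟩
      · rintro ⟨_, _, _⟩
        exact ⟨.hub, .sel v'.1, rfl, (inv_sel _ _).2 rfl, trivial⟩
    · constructor
      · rintro ⟨x, y, hx, hy, hxy⟩
        rw [(inv_gad _ _ _).1 hy] at hxy
        exact ⟨⟨.hub, rfl⟩, ⟨y, hy⟩, (key c' j').1 ⟨x, hx, hxy⟩⟩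
      · rintro ⟨_, _, h⟩
        obtain ⟨x, hx, hxy⟩ := (key c' j').2 h
        exact ⟨x, .gad j' c', hx, (inv_gad _ _ _).2 rfl, hxy⟩
    · constructor
      · rintro ⟨x, y, hx, _, _⟩
        exact ⟨⟨x, hx⟩, ⟨.hub, rfl⟩, trivial⟩
      · rintro ⟨_, _, _⟩
        exact ⟨.sel v.1, .hub, (inv_sel _ _).2 rfl, rfl, trivial⟩
    · constructor
      · rintro ⟨x, y, hx, hy, hxy⟩
        rw [(inv_sel _ _).1 hx, (inv_sel _ _).1 hy, adj_sel_sel] at hxy
        refine ⟨⟨x, hx⟩, ⟨y, hy⟩, ?_⟩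
        rw [adj_sel_sel]
        exact ⟨fun e => hxy.1 (congrArg Subtype.val e), hxy.2⟩
      · rintro ⟨_, _, h⟩
        rw [adj_sel_sel] at h
        refine ⟨.sel v.1, .sel v'.1, (inv_sel _ _).2 rfl, (inv_sel _ _).2 rfl, ?_⟩
        rw [adj_sel_sel]
        exact ⟨fun e => h.1 (Subtype.ext e), h.2⟩
    · constructor
      · rintro ⟨x, y, hx, hy, hxy⟩
        rw [(inv_sel _ _).1 hx, (inv_gad _ _ _).1 hy] at hxy
        exact ⟨⟨x, hx⟩, ⟨y, hy⟩, hxy⟩
      · rintro ⟨_, _, h⟩
        exact ⟨.sel v.1, .gad j' c', (inv_sel _ _).2 rfl, (inv_gad _ _ _).2 rfl, h⟩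
    · constructor
      · rintro ⟨x, y, hx, hy, hxy⟩
        rw [(inv_gad _ _ _).1 hx] at hxy
        exact ⟨⟨x, hx⟩, ⟨.hub, rfl⟩, (key c j).1 ⟨y, hy, hxy.symm⟩⟩
      · rintro ⟨_, _, h⟩
        obtain ⟨x, hx, hxy⟩ := (key c j).2 h
        exact ⟨.gad j c, x, (inv_gad _ _ _).2 rfl, hx, hxy.symm⟩
    · constructor
      · rintro ⟨x, y, hx, hy, hxy⟩
        rw [(inv_gad _ _ _).1 hx, (inv_sel _ _).1 hy] at hxy
        exact ⟨⟨x, hx⟩, ⟨y, hy⟩, hxy⟩
      · rintro ⟨_, _, h⟩
        exact ⟨.gad j c, .sel v'.1, (inv_gad _ _ _).2 rfl, (inv_sel _ _).2 rfl, h⟩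
    · constructor
      · rintro ⟨x, y, hx, hy, hxy⟩
        rw [(inv_gad _ _ _).1 hx, (inv_gad _ _ _).1 hy] at hxy
        exact ⟨⟨x, hx⟩, ⟨y, hy⟩, hxy⟩
      · rintro ⟨_, _, h⟩
        exact ⟨.gad j c, .gad j' c', (inv_gad _ _ _).2 rfl, (inv_gad _ _ _).2 rfl, h⟩

/-- enough untouched indices -/
lemma exists_fresh {U ι : Type} [Fintype ι] (F : Finset (Sym2 U)) (R : ℕ) (k : ℕ)
    (hF : F.card ≤ k) (hR : 2 * k + Fintype.card ι ≤ R) (blk : U → Option (Fin R)) :
    ∃ g : ι → Fin R, Function.Injective g ∧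
      ∀ i, ∀ v, blk v = some (g i) → ∀ e ∈ F, v ∉ e := by
  classical
  -- touched vertices
  let T : Finset U := F.biUnion (fun e => e.toFinset)
  have hT : T.card ≤ 2 * k := by
    calc T.card ≤ ∑ e ∈ F, e.toFinset.card := Finset.card_biUnion_le
      _ ≤ ∑ e ∈ F, 2 := by
          apply Finset.sum_le_sum
          intro e _
          rw [Sym2.card_toFinset]
          split_ifs <;> omega
      _ = F.card * 2 := by simp
      _ ≤ 2 * k := by omega
  let bad : Finset (Fin R) := (T.image blk).eraseNone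
  have hbad : bad.card ≤ 2 * k := by
    have h1 : bad.card ≤ (T.image blk).card := by
      refine Finset.card_le_card_of_injOn (fun r => some r) ?_ ?_
      · intro r hr
        simpa [bad] using hr
      · intro a _ b _ h
        simpa using h
    exact h1.trans (Finset.card_image_le.trans hT)
  have hgood : Fintype.card ι ≤ (Finset.univ \ bad).card := by
    rw [Finset.card_sdiff_of_subset (Finset.subset_univ _), Finset.card_univ, Fintype.card_fin]
    omega
  have h3 : Fintype.card ι ≤ Fintype.card (Finset.univ \ bad : Finset (Fin R)) := by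
    rw [Fintype.card_coe]; exact hgood
  obtain ⟨g⟩ := Function.Embedding.nonempty_of_card_le h3
  refine ⟨fun i => (g i).1, fun a b h => g.injective (Subtype.ext h), ?_⟩
  intro i v hv e he hve
  have h1 := (g i).2
  rw [Finset.mem_sdiff] at h1
  apply h1.2
  simp only [bad, Finset.mem_eraseNone, Finset.mem_image]
  refine ⟨v, ?_, hv⟩
  simp only [T, Finset.mem_biUnion]
  exact ⟨e, he, by simpa using hve⟩

end HFC
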