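import Pool.Agent.Lib.HFC.Mg.G001

open Classical

namespace HFC

variable {α C V J : Type}

/-- `H` has a working pattern. -/
def HasPat (H : SimpleGraph α) : Prop :=
  ∃ (C : Type) (_ : Fintype C) (p : Pat C), Nonempty (Good H p)

/-- If a self-map of a finite graph is bijective and reflects adjacency then it preserves it. -/
lemma adj_of_reflect [Finite α] (H : SimpleGraph α) (φ : α → α) (hφ : Function.Injective φ)
    (h : ∀ w w', H.Adj (φ w) (φ w') → H.Adj w w') : ∀ w w', H.Adj w w' → H.Adj (φ w) (φ w') := by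
  have := Fintype.ofFinite α
  have hbij : Function.Bijective φ := Finite.injective_iff_bijective.1 hφ
  let S : Finset (α × α) := Finset.univ.filter (fun q => H.Adj q.1 q.2)
  let Φ : α × α → α × α := fun q => (φ q.1, φ q.2)
  have hΦ : Function.Injective Φ := by
    intro a b hab
    simp only [Φ, Prod.mk.injEq] at hab
    exact Prod.ext (hφ hab.1) (hφ hab.2)
  have hsub : S ⊆ S.image Φ := by
    intro q hq
    obtain ⟨a, ha⟩ := hbij.2 q.1
    obtain ⟨b, hb⟩ := hbij.2 q.2
    rw [Finset.mem_image]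
    refine ⟨(a, b), ?_, ?_⟩
    · simp only [S, Finset.mem_filter, Finset.mem_univ, true_and] at hq ⊢
      apply h
      rw [ha, hb]; exact hq
    · simp only [Φ, ha, hb]
  have hcard : (S.image Φ).card = S.card := Finset.card_image_of_injective _ hΦ
  have heq : S = S.image Φ := Finset.eq_of_subset_of_card_le hsub (by rw [hcard])
  intro w w' hw
  have : Φ (w, w') ∈ S := by
    rw [heq]
    exact Finset.mem_image_of_mem _ (by simp [S, hw])
  simpa [S, Φ] using this

/-- An embedding whose image lies in the hub and one gadget copy is impossible. -/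
lemma one_gadget [Finite α] {H : SimpleGraph α} {p : Pat C} {B : C → Prop} {rel : V → J → Prop}
    (f : H ↪g p.graph B rel) (x : α) (δ : {d : α // d ≠ x} → C)
    (hI : ∀ d d', p.I (δ d) (δ d') ↔ H.Adj d d') (hB : ∀ d, H.Adj x d.1 → B (δ d))
    (y : {d : α // d ≠ x}) (hy : B (δ y)) (hxy : ¬ H.Adj x y) (j : J)
    (him : ∀ w, f w = .hub ∨ ∃ d, f w = .gad j (δ d)) : False := by
  have hch : ∀ w, ∃ a : α, (a = x ∧ f w = .hub) ∨ ∃ h : a ≠ x, f w = .gad j (δ ⟨a, h⟩) := by
    intro w
    rcases him w with h | ⟨d, h⟩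
    · exact ⟨x, Or.inl ⟨rfl, h⟩⟩
    · exact ⟨d.1, Or.inr ⟨d.2, h⟩⟩
  choose φ hφ using hch
  have φinj : Function.Injective φ := by
    intro w w' h
    apply f.injective
    rcases hφ w with ⟨h1, h2⟩ | ⟨h1, h2⟩
    · rcases hφ w' with ⟨h1', h2'⟩ | ⟨h1', h2'⟩
      · rw [h2, h2']
      · exact absurd (h ▸ h1) h1'
    · rcases hφ w' with ⟨h1', h2'⟩ | ⟨h1', h2'⟩
      · exact absurd (h ▸ h1') h1
      · rw [h2, h2']
        congr 2
        exact Subtype.ext h
  have hrefl : ∀ w w', H.Adj (φ w) (φ w') → H.Adj w w' := by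
    intro w w' h
    rw [← f.map_rel_iff]
    rcases hφ w with ⟨h1, h2⟩ | ⟨h1, h2⟩
    · rcases hφ w' with ⟨h1', h2'⟩ | ⟨h1', h2'⟩
      · rw [h1, h1'] at h; exact absurd rfl (H.ne_of_adj h)
      · show (p.graph B rel).Adj (f w) (f w')
        rw [h2, h2']
        exact hB ⟨φ w', h1'⟩ (by rw [h1] at h; exact h)
    · rcases hφ w' with ⟨h1', h2'⟩ | ⟨h1', h2'⟩
      · show (p.graph B rel).Adj (f w) (f w')
        rw [h2, h2']
        exact hB ⟨φ w, h1⟩ (by rw [h1'] at h; exact h.symm)
      · show (p.graph B rel).Adj (f w) (f w')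
        rw [h2, h2']
        exact Or.inl ⟨rfl, (hI _ _).2 h⟩
  have hpres := adj_of_reflect H φ φinj hrefl
  have hsurj : Function.Surjective φ := (Finite.injective_iff_surjective.1 φinj)
  obtain ⟨w0, hw0⟩ := hsurj x
  obtain ⟨w1, hw1⟩ := hsurj y.1
  have e0 : f w0 = .hub := by
    rcases hφ w0 with ⟨_, h2⟩ | ⟨h1, _⟩
    · exact h2
    · exact absurd hw0 h1
  have e1 : f w1 = .gad j (δ y) := by
    rcases hφ w1 with ⟨h1, _⟩ | ⟨h1, h2⟩
    · exact absurd (hw1 ▸ h1) y.2
    · rw [h2]; congr 2; exact Subtype.ext hw1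
  have : H.Adj w0 w1 := by
    rw [← f.map_rel_iff]
    show (p.graph B rel).Adj (f w0) (f w1)
    rw [e0, e1]; exact hy
  have h3 := hpres _ _ this
  rw [hw0, hw1] at h3
  exact hxy h3

/-- Pattern with gadget `H - x` only. -/
def dPat (H : SimpleGraph α) (x : α) (M : α → α → Prop) (hM : ∀ a b, M a b → M b a)
    (P Q : α → Prop) (T : Prop) : Pat {d : α // d ≠ x} where
  I a b := H.Adj a b
  M a b := M a b
  A d := H.Adj x d
  P d := P d
  Q d := Q d
  T := T
  I_symm _ _ h := h.symm
  I_irrefl _ h := (H.ne_of_adj h) rfl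
  M_symm _ _ h := hM _ _ h

/-- An auto-robust pattern is good once the contracted graphs are `H`-free. -/
lemma dPat_good [Fintype α] (H : SimpleGraph α) (x : α) (M : α → α → Prop)
    (hM : ∀ a b, M a b → M b a)
    (P Q : α → Prop) (T : Prop) (hMx : ∀ a b, M a b → H.Adj x a)
    (hQx : ∀ a, Q a → H.Adj x a)
    (free : ∀ (V J : Type) (rel : V → J → Prop),
      IsEmpty (H ↪g (dPat H x M hM P Q T).graph (fun c => H.Adj x c ∨ P c) rel)) :
    HasPat H := by
  refine ⟨{d : α // d ≠ x}, inferInstance, dPat H x M hM P Q T, ⟨?_⟩⟩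
  exact {
    x := x
    δ := id
    inj := Function.injective_id
    hI := fun d d' => Iff.rfl
    hA := fun d => Iff.rfl
    hQ := fun d h => hQx _ h
    hQB := fun c h => Or.inl (hQx _ h)
    penal := fun t d h hn => absurd (hMx _ _ (hM _ _ h)) hn
    free := free }

end HFC
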