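import Pool.Agent.Lib.HFC.Mg.G005
import Pool.Agent.Lib.HFC.Mg.G002
import Pool.Agent.Lib.HFC.Mg.G004
import Pool.Agent.Lib.HFC.Mg.G006
import Pool.Agent.Lib.HFC.Mg.G001

open Classical

namespace HFC

variable {α V J : Type}

/-- `H - u` bipartite with an isolated vertex, all edges meet `{p, q}`. -/
theorem cover_case [Fintype α] {H : SimpleGraph α} {u p q x : α} (hcard : 6 ≤ Fintype.card α)
    (hu : ∀ w, w ≠ u → H.Adj u w)
    (tri : ∀ a b c, a ≠ u → b ≠ u → c ≠ u → H.Adj a b → H.Adj b c → H.Adj a c → False)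
    (hxu : x ≠ u) (hx : ∀ w, H.Adj x w → w = u) (hpu : p ≠ u) (hqu : q ≠ u)
    (hpq : p = q ∨ H.Adj p q)
    (hcov : ∀ a b, a ≠ u → b ≠ u → H.Adj a b → (a = p ∨ a = q ∨ b = p ∨ b = q)) : HasPat H := by
  have fresh : ∀ s : Finset α, s.card ≤ 5 → ∃ a, a ∉ s := fun s hs =>
    exists_not_mem_of_card s (by omega)
  -- Case A: two leaves at a common centre
  by_cases hA : ∃ r l1 l2, r ≠ u ∧ l1 ≠ u ∧ l2 ≠ u ∧ l1 ≠ l2 ∧ H.Adj r l1 ∧ H.Adj r l2 ∧
      (∀ w, w ≠ u → H.Adj l1 w → w = r) ∧ (∀ w, w ≠ u → H.Adj l2 w → w = r)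
  · obtain ⟨r, l1, l2, hru, h1u, h2u, h12, hr1, hr2, hl1, hl2⟩ := hA
    have h1r : l1 ≠ r := (H.ne_of_adj hr1).symm
    have h2r : l2 ≠ r := (H.ne_of_adj hr2).symm
    have hxr : x ≠ r := by
      rintro rfl
      exact h1u (hx l1 hr1)
    have hx1 : x ≠ l1 := by
      rintro rfl
      exact hru (hx r hr1.symm)
    have hx2 : x ≠ l2 := by
      rintro rfl
      exact hru (hx r hr2.symm)
    have n12 : ¬ H.Adj l1 l2 := fun h => h2r (hl1 l2 h2u h)
    obtain ⟨e, he⟩ := fresh {u, x, l1, l2, r} Finset.card_le_five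
    simp only [Finset.mem_insert, Finset.mem_singleton, not_or] at he
    refine xi (u := u) (x := x) (y0 := l1) (z0 := l2) (Z := fun z => z = l2 ∨ z = r) hu hxu hx h1u
      hx1.symm (Or.inl rfl) ?_ ?_ ?_ ?_ n12 ?_ ?_ ?_ ?_
    · rintro (h | h)
      · exact h2u h.symm
      · exact hru h.symm
    · rintro (h | h)
      · exact hx2 h
      · exact hxr h
    · rintro (h | h)
      · exact h12 h
      · exact h1r h
    · rintro a b (rfl | rfl) (rfl | rfl) hab
      · exact absurd rfl hab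
      · exact hr2.symm
      · exact hr2
      · exact absurd rfl hab
    · intro e heu _ _ hez h
      exact hez (Or.inr (hl1 e heu h))
    · intro e heu _ _ hez h
      exact hez (Or.inr (hl2 e heu h))
    · rintro z e e' (rfl | rfl) h1 h2 h3 h4 h5 h6 h7 h8 hze hze'
      · exact absurd (Or.inr (hl2 e h1 hze)) h4
      · intro hee
        exact tri z e e' hru h1 h5 hze hee hze'
    · exact ⟨e, he.1, he.2.1, he.2.2.1, fun h => by
        rcases h with h | h
        · exact he.2.2.2.1 h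
        · exact he.2.2.2.2 h⟩
  -- an edge of `H - u`
  by_cases hE : ∃ a b, a ≠ u ∧ b ≠ u ∧ H.Adj a b
  swap
  · -- no edges
    push Not at hE
    obtain ⟨y, hy⟩ := fresh {u, x} (by
      have := Finset.card_le_two (a := u) (b := x); omega)
    obtain ⟨z, hz⟩ := fresh {u, x, y} (by
      have := Finset.card_le_three (a := u) (b := x) (c := y); omega)
    obtain ⟨e, he⟩ := fresh {u, x, y, z} (by
      have := Finset.card_le_four (a := u) (b := x) (c := y) (d := z); omega)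
    simp only [Finset.mem_insert, Finset.mem_singleton, not_or] at hy hz he
    refine xi (u := u) (x := x) (y0 := y) (z0 := z) (Z := fun w => w = z) hu hxu hx hy.1
      hy.2 rfl (Ne.symm hz.1) (Ne.symm hz.2.1) (Ne.symm hz.2.2) ?_ (hE y z hy.1 hz.1) ?_ ?_ ?_ ?_
    · rintro a b rfl rfl hab
      exact absurd rfl hab
    · intro e h1 _ _ _
      exact hE y e hy.1 h1
    · intro e h1 _ _ _
      exact hE z e hz.1 h1
    · rintro w e e' rfl h1 h2 h3 h4 h5 h6 h7 h8 h9
      exact absurd h9 (hE w e hz.1 h1)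
    · exact ⟨e, he.1, he.2.1, he.2.2.1, he.2.2.2⟩
  obtain ⟨a0, b0, ha0, hb0, hab0⟩ := hE
  -- the `K2` case: two adjacent vertices that are the only edge
  by_cases hK : ∃ a b, a ≠ u ∧ b ≠ u ∧ H.Adj a b ∧
      (∀ c d, c ≠ u → d ≠ u → H.Adj c d → (c = a ∧ d = b) ∨ (c = b ∧ d = a))
  · obtain ⟨a, b, ha, hb, hab, honly⟩ := hK
    have hne : a ≠ b := H.ne_of_adj hab
    have hxa : x ≠ a := by rintro rfl; exact hb (hx b hab)
    have hxb : x ≠ b := by rintro rfl; exact ha (hx a hab.symm)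
    obtain ⟨y, hy⟩ := fresh {u, x, a, b} (by
      have := Finset.card_le_four (a := u) (b := x) (c := a) (d := b); omega)
    obtain ⟨e, he⟩ := fresh {u, x, a, b, y} Finset.card_le_five
    simp only [Finset.mem_insert, Finset.mem_singleton, not_or] at hy he
    have iso : ∀ w, w ≠ u → w ≠ a → w ≠ b → ∀ c, c ≠ u → ¬ H.Adj w c := by
      intro w hwu hwa hwb c hcu h
      rcases honly w c hwu hcu h with ⟨h1, _⟩ | ⟨h1, _⟩
      · exact hwa h1
      · exact hwb h1
    refine xi (u := u) (x := x) (y0 := y) (z0 := a) (Z := fun w => w = a ∨ w = b) hu hxu hx hy.1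
      hy.2.1 (Or.inl rfl) ?_ ?_ ?_ ?_ (iso y hy.1 hy.2.2.1 hy.2.2.2 a ha) ?_ ?_ ?_ ?_
    · rintro (h | h)
      · exact ha h.symm
      · exact hb h.symm
    · rintro (h | h)
      · exact hxa h
      · exact hxb h
    · rintro (h | h)
      · exact hy.2.2.1 h
      · exact hy.2.2.2 h
    · rintro c d (rfl | rfl) (rfl | rfl) hcd
      · exact absurd rfl hcd
      · exact hab
      · exact hab.symm
      · exact absurd rfl hcd
    · intro e h1 _ _ _
      exact iso y hy.1 hy.2.2.1 hy.2.2.2 e h1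
    · intro e h1 _ _ h4 h
      exact iso e h1 (fun h => h4 (Or.inl h)) (fun h => h4 (Or.inr h)) a ha h.symm
    · intro z e e' hz h1 _ _ h4 h5 _ _ h8 hze hze' hee
      exact iso e h1 (fun h => h4 (Or.inl h)) (fun h => h4 (Or.inr h)) e' h5 hee
    · exact ⟨e, he.1, he.2.1, he.2.2.2.2, fun h => by
        rcases h with h | h
        · exact he.2.2.1 h
        · exact he.2.2.2.1 h⟩
  -- leaf facts
  have leafp : ∀ w, w ≠ u → w ≠ p → w ≠ q → H.Adj p w → ∀ c, c ≠ u → H.Adj w c → c = p := by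
    intro w hwu hwp hwq hpw c hcu hwc
    rcases hcov w c hwu hcu hwc with h | h | h | h
    · exact absurd h hwp
    · exact absurd h hwq
    · exact h
    · rcases hpq with h' | h'
      · rw [h, h']
      · rw [h] at hwc
        exact (tri p w q hpu hwu hqu hpw hwc h').elim
  have leafq : ∀ w, w ≠ u → w ≠ p → w ≠ q → H.Adj q w → ∀ c, c ≠ u → H.Adj w c → c = q := by
    intro w hwu hwp hwq hqw c hcu hwc
    rcases hcov w c hwu hcu hwc with h | h | h | h
    · exact absurd h hwp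
    · exact absurd h hwq
    · rcases hpq with h' | h'
      · rw [h, h']
      · rw [h] at hwc
        exact (tri q w p hqu hwu hpu hqw hwc h'.symm).elim
    · exact h
  have onep : ∀ w w', w ≠ u → w ≠ p → w ≠ q → w' ≠ u → w' ≠ p → w' ≠ q → H.Adj p w → H.Adj p w' →
      w = w' := by
    intro w w' h1 h2 h3 h4 h5 h6 h7 h8
    by_contra hne
    exact hA ⟨p, w, w', hpu, h1, h4, hne, h7, h8, leafp w h1 h2 h3 h7, leafp w' h4 h5 h6 h8⟩
  have oneq : ∀ w w', w ≠ u → w ≠ p → w ≠ q → w' ≠ u → w' ≠ p → w' ≠ q → H.Adj q w → H.Adj q w' →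
      w = w' := by
    intro w w' h1 h2 h3 h4 h5 h6 h7 h8
    by_contra hne
    exact hA ⟨q, w, w', hqu, h1, h4, hne, h7, h8, leafq w h1 h2 h3 h7, leafq w' h4 h5 h6 h8⟩
  rcases hpq with hpq | hpq
  · -- a single centre: at most one edge
    exfalso
    subst hpq
    apply hK
    have : ∃ l, l ≠ u ∧ l ≠ p ∧ H.Adj p l := by
      rcases hcov a0 b0 ha0 hb0 hab0 with h | h | h | h
      · subst h; exact ⟨b0, hb0, (H.ne_of_adj hab0).symm, hab0⟩
      · subst h; exact ⟨b0, hb0, (H.ne_of_adj hab0).symm, hab0⟩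
      · subst h; exact ⟨a0, ha0, (H.ne_of_adj hab0), hab0.symm⟩
      · subst h; exact ⟨a0, ha0, (H.ne_of_adj hab0), hab0.symm⟩
    obtain ⟨l, hlu, hlp, hpl⟩ := this
    refine ⟨p, l, hpu, hlu, hpl, ?_⟩
    intro c d hcu hdu hcd
    have key : ∀ c d, c ≠ u → d ≠ u → H.Adj c d → c = p → d = l := by
      intro c d hcu hdu hcd hc
      subst hc
      have hdc : d ≠ c := (H.ne_of_adj hcd).symm
      exact onep d l hdu hdc hdc hlu hlp hlp hcd hpl
    rcases hcov c d hcu hdu hcd with h | h | h | h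
    · exact Or.inl ⟨h, key c d hcu hdu hcd h⟩
    · exact Or.inl ⟨h, key c d hcu hdu hcd h⟩
    · exact Or.inr ⟨key d c hdu hcu hcd.symm h, h⟩
    · exact Or.inr ⟨key d c hdu hcu hcd.symm h, h⟩
  have hpqne : p ≠ q := H.ne_of_adj hpq
  have hxp : x ≠ p := by rintro rfl; exact hqu (hx q hpq)
  have hxq : x ≠ q := by rintro rfl; exact hpu (hx p hpq.symm)
  -- leaves at both centres
  have exlp : ∃ l, l ≠ u ∧ l ≠ p ∧ l ≠ q ∧ H.Adj p l := by
    by_contra hno
    push Not at hno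
    by_cases hq : ∃ m, m ≠ u ∧ m ≠ p ∧ m ≠ q ∧ H.Adj q m
    · obtain ⟨m, h1, h2, h3, h4⟩ := hq
      apply hA
      refine ⟨q, p, m, hqu, hpu, h1, Ne.symm h2, hpq.symm, h4, ?_, leafq m h1 h2 h3 h4⟩
      intro w hwu hpw
      by_contra hwq
      exact hno w hwu (H.ne_of_adj hpw).symm hwq hpw
    · push Not at hq
      apply hK
      refine ⟨p, q, hpu, hqu, hpq, ?_⟩
      intro c d hcu hdu hcd
      have kp : ∀ c d, d ≠ u → H.Adj c d → c = p → d = q := by
        intro c d hdu hcd hc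
        subst hc
        by_contra hdq
        exact hno d hdu (H.ne_of_adj hcd).symm hdq hcd
      have kq : ∀ c d, d ≠ u → H.Adj c d → c = q → d = p := by
        intro c d hdu hcd hc
        subst hc
        by_contra hdp
        exact hq d hdu hdp (H.ne_of_adj hcd).symm hcd
      rcases hcov c d hcu hdu hcd with h | h | h | h
      · exact Or.inl ⟨h, kp c d hdu hcd h⟩
      · exact Or.inr ⟨h, kq c d hdu hcd h⟩
      · exact Or.inr ⟨kp d c hcu hcd.symm h, h⟩
      · exact Or.inl ⟨kq d c hcu hcd.symm h, h⟩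
  have exlq : ∃ l, l ≠ u ∧ l ≠ p ∧ l ≠ q ∧ H.Adj q l := by
    by_contra hno
    push Not at hno
    obtain ⟨l, h1, h2, h3, h4⟩ := exlp
    apply hA
    refine ⟨p, q, l, hpu, hqu, h1, Ne.symm h3, hpq, h4, ?_, leafp l h1 h2 h3 h4⟩
    intro w hwu hqw
    by_contra hwp
    exact hno w hwu hwp (H.ne_of_adj hqw).symm hqw
  obtain ⟨l, hlu, hlp, hlq, hpl⟩ := exlp
  obtain ⟨m, hmu, hmp, hmq, hqm⟩ := exlq
  have hLl := leafp l hlu hlp hlq hpl
  have hLm := leafq m hmu hmp hmq hqm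
  have hlm : l ≠ m := by
    rintro rfl
    exact hpqne (hLm p hpu hpl.symm)
  have hxl : x ≠ l := by rintro rfl; exact hpu (hx p hpl.symm)
  have hxm : x ≠ m := by rintro rfl; exact hqu (hx q hqm.symm)
  have others : ∀ w, w ≠ u → w ≠ p → w ≠ q → w ≠ l → w ≠ m → ∀ c, c ≠ u → ¬ H.Adj w c := by
    intro w h1 h2 h3 h4 h5 c hc h
    rcases hcov w c h1 hc h with h' | h' | h' | h'
    · exact h2 h'
    · exact h3 h'
    · subst h'
      exact h4 (onep w l h1 h2 h3 hlu hlp hlq h.symm hpl)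
    · subst h'
      exact h5 (oneq w m h1 h2 h3 hmu hmp hmq h.symm hqm)
  by_cases h7 : 7 ≤ Fintype.card α
  · obtain ⟨y, hy⟩ := exists_not_mem_of_card (α := α) {u, x, p, q, l, m} (by
      have := Finset.card_le_six (a := u) (b := x) (c := p) (d := q) (e := l) (f := m)
      omega)
    simp only [Finset.mem_insert, Finset.mem_singleton, not_or] at hy
    obtain ⟨y1, y2, y3, y4, y5, y6⟩ := hy
    have hyall := others y y1 y3 y4 y5 y6
    refine xi (u := u) (x := x) (y0 := y) (z0 := l) (Z := fun w => w = l ∨ w = p) hu hxu hx y1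
      y2 (Or.inl rfl) ?_ ?_ ?_ ?_ (hyall l hlu) ?_ ?_ ?_ ?_
    · rintro (h | h)
      · exact hlu h.symm
      · exact hpu h.symm
    · rintro (h | h)
      · exact hxl h
      · exact hxp h
    · rintro (h | h)
      · exact y5 h
      · exact y3 h
    · rintro c d (rfl | rfl) (rfl | rfl) hcd
      · exact absurd rfl hcd
      · exact hpl.symm
      · exact hpl
      · exact absurd rfl hcd
    · intro e h1 _ _ _
      exact hyall e h1
    · intro e h1 _ _ h4 h
      exact h4 (Or.inr (hLl e h1 h))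
    · intro z e e' hz h1 _ _ h4 h5 _ _ h8 hze hze' hee
      have hzu : z ≠ u := by
        rcases hz with rfl | rfl
        · exact hlu
        · exact hpu
      exact tri z e e' hzu h1 h5 hze hee hze'
    · exact ⟨q, hqu, Ne.symm hxq, Ne.symm y4, fun h => by
        rcases h with h | h
        · exact hlq h.symm
        · exact hpqne h.symm⟩
  · have hc6 : Fintype.card α = 6 := by omega
    refine hasPat_of_tab hc6 GP4 hasPat_GP4 ![x, l, m, q, p, u]
      (inj6 hxl hxm hxq hxp hxu hlm hlq hlp hlu hmq hmp hmu hpqne.symm hqu hpu) ?_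
    have nx : ∀ w, w ≠ u → ¬ H.Adj x w := fun w hw h => hw (hx w h)
    have e01 : ¬ H.Adj x l := nx l hlu
    have e02 : ¬ H.Adj x m := nx m hmu
    have e03 : ¬ H.Adj x q := nx q hqu
    have e04 : ¬ H.Adj x p := nx p hpu
    have e05 : H.Adj x u := (hu x hxu).symm
    have e12 : ¬ H.Adj l m := fun h => hmp (hLl m hmu h)
    have e13 : ¬ H.Adj l q := fun h => hpqne.symm (hLl q hqu h)
    have e14 : H.Adj l p := hpl.symm
    have e15 : H.Adj l u := (hu l hlu).symm
    have e23 : H.Adj m q := hqm.symm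
    have e24 : ¬ H.Adj m p := fun h => hpqne (hLm p hpu h)
    have e25 : H.Adj m u := (hu m hmu).symm
    have e34 : H.Adj q p := hpq.symm
    have e35 : H.Adj q u := (hu q hqu).symm
    have e45 : H.Adj p u := (hu p hpu).symm
    intro i j hij
    rw [GP4_adj]
    fin_cases i <;> fin_cases j <;> first
      | exact absurd hij (by decide)
      | simp [e01, e02, e03, e04, e05, e12, e13, e14, e15, e23, e24, e25, e34, e35, e45]

theorem s1_disc [Fintype α] {H : SimpleGraph α} {u : α} (hcard : 6 ≤ Fintype.card α)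
    (hu : ∀ w, w ≠ u → H.Adj u w)
    (hd : ¬ (H.induce {w | w ≠ u}).Preconnected)
    (hnu : ∀ v, v ≠ u → ∃ w, w ≠ v ∧ w ≠ u ∧ ¬ H.Adj v w) : HasPat H := by
  by_cases hb : ∃ c : α → Bool, ∀ a b, a ≠ u → b ≠ u → H.Adj a b → c a ≠ c b
  swap
  · exact nonbip_disc hcard hu hd hb
  by_cases h2 : ∃ S : α → Prop, (∀ a b, a ≠ u → b ≠ u → H.Adj a b → (S a ↔ S b)) ∧
      (∃ a b, a ≠ u ∧ b ≠ u ∧ H.Adj a b ∧ S a) ∧ (∃ a b, a ≠ u ∧ b ≠ u ∧ H.Adj a b ∧ ¬ S a)
  · exact bip_disc hcard hu hb h2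
  have hone : ∀ S : α → Prop, (∀ a b, a ≠ u → b ≠ u → H.Adj a b → (S a ↔ S b)) →
      (∃ a b, a ≠ u ∧ b ≠ u ∧ H.Adj a b ∧ S a) → ∀ a b, a ≠ u → b ≠ u → H.Adj a b → S a := by
    intro S hS hne a b ha hb' hab
    by_contra hcon
    exact h2 ⟨S, hS, hne, a, b, ha, hb', hab, hcon⟩
  have hne : ∃ v, v ≠ u := by
    obtain ⟨a, ha⟩ := exists_not_mem_of_card (α := α) {u} (by simp; omega)
    exact ⟨a, by simpa using ha⟩
  rcases p1 hu hnu hb hone hne with h | ⟨p, q, hpu, hqu, hpq, hcov⟩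
  · exact h
  have tri : ∀ a b c, a ≠ u → b ≠ u → c ≠ u → H.Adj a b → H.Adj b c → H.Adj a c → False := by
    obtain ⟨c, hc⟩ := hb
    intro a b d ha hb' hd hab hbd had
    have h1 := hc a b ha hb' hab
    have h2 := hc b d hb' hd hbd
    have h3 := hc a d ha hd had
    revert h1 h2 h3
    cases c a <;> cases c b <;> cases c d <;> simp
  -- an isolated vertex
  have hiso : ∃ x, x ≠ u ∧ ∀ w, H.Adj x w → w = u := by
    by_contra hcon
    push Not at hcon
    apply hd
    intro a b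
    obtain ⟨wa, hwa, hwau⟩ := hcon a.1 a.2
    obtain ⟨wb, hwb, hwbu⟩ := hcon b.1 b.2
    have := hone (fun c => ∃ h : c ≠ u, (H.induce {w | w ≠ u}).Reachable a ⟨c, h⟩) (by
      have key : ∀ c d, c ≠ u → d ≠ u → H.Adj c d →
          (∃ h : c ≠ u, (H.induce {w | w ≠ u}).Reachable a ⟨c, h⟩) →
          ∃ h : d ≠ u, (H.induce {w | w ≠ u}).Reachable a ⟨d, h⟩ := by
        rintro c d hc hd hcd ⟨_, h⟩
        exact ⟨hd, h.trans (SimpleGraph.Adj.reachable (show H.Adj c d from hcd))⟩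
      intro c d hc hd hcd
      exact ⟨key c d hc hd hcd, key d c hd hc hcd.symm⟩)
      ⟨a.1, wa, a.2, hwau, hwa, a.2, SimpleGraph.Reachable.refl _⟩ b.1 wb b.2 hwbu hwb
    exact this.2
  obtain ⟨x, hxu, hx⟩ := hiso
  exact cover_case hcard hu tri hxu hx hpu hqu hpq hcov

/-- Every connected non-complete graph with at least six vertices has a working pattern or is a
double star. -/
theorem classification [Fintype α] {H : SimpleGraph α} (hcard : 6 ≤ Fintype.card α)
    (hconn : H.Connected) (hnc : H ≠ ⊤) :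
    HasPat H ∨ ∃ p q, DStar H p q ∧ (∃ w, w ≠ p ∧ w ≠ q ∧ H.Adj p w) ∧
      (∃ w, w ≠ p ∧ w ≠ q ∧ H.Adj q w) := by
  have hnc' : ∃ a b, a ≠ b ∧ ¬ H.Adj a b := by
    by_contra hcon
    push Not at hcon
    apply hnc
    ext a b
    simp only [SimpleGraph.top_adj]
    exact ⟨fun h => H.ne_of_adj h, hcon a b⟩
  by_cases hu : ∃ u, ∀ w, w ≠ u → H.Adj u w
  · left
    obtain ⟨u, hu⟩ := hu
    by_cases hu2 : ∃ u2, u2 ≠ u ∧ ∀ w, w ≠ u2 → H.Adj u2 w
    · obtain ⟨u2, h12, hu2⟩ := hu2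
      exact s2_case hcard h12.symm hu hu2 hnc'
    have hnu : ∀ v, v ≠ u → ∃ w, w ≠ v ∧ w ≠ u ∧ ¬ H.Adj v w := by
      intro v hv
      by_contra hcon
      push Not at hcon
      apply hu2
      refine ⟨v, hv, ?_⟩
      intro w hw
      by_cases hwu : w = u
      · rw [hwu]; exact (hu v hv).symm
      · exact hcon w hw hwu
    by_cases hd : (H.induce {w | w ≠ u}).Preconnected
    · exact s1_conn hcard hu hd hnu
    · exact s1_disc hcard hu hd hnu
  · have hnu : ∀ v, ∃ w, w ≠ v ∧ ¬ H.Adj v w := by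
      intro v
      by_contra hcon
      push Not at hcon
      exact hu ⟨v, hcon⟩
    rcases s0_case hconn.preconnected hconn.nonempty hnu with h | ⟨q, K, hE⟩
    · exact Or.inl h
    by_cases hbig : (∃ k k', K k ∧ K k' ∧ k ≠ k') ∨
      (∃ w w', H.Adj q w ∧ ¬ K w ∧ H.Adj q w' ∧ ¬ K w' ∧ H.Adj w w')
    · exact Or.inl (qLI_s0 hconn.preconnected hE hbig)
    push Not at hbig
    obtain ⟨h2, hX⟩ := hbig
    obtain ⟨p, hp⟩ := hE.Kne
    have hKp : ∀ k, K k → k = p := fun k hk => h2 k p hk hp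
    right
    refine ⟨p, q, ⟨(hE.Kq p hp).symm, ?_, ?_⟩, ?_, ?_⟩
    · intro w hwp hwq
      by_cases hqw : H.Adj q w
      · have hKw : ¬ K w := fun h => hwp (hKp w h)
        have := hE.XK w p hqw hKw hp
        tauto
      · have := hE.KL p w hp hwq hqw
        tauto
    · intro w w' hwp hwq hwp' hwq'
      have hKw : ¬ K w := fun h => hwp (hKp w h)
      have hKw' : ¬ K w' := fun h => hwp' (hKp w' h)
      by_cases hqw : H.Adj q w
      · by_cases hqw' : H.Adj q w'
        · exact hX w w' hqw hKw hqw' hKw'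
        · exact fun h => hE.XL w w' hqw hKw hwq' hqw' h.symm
      · by_cases hqw' : H.Adj q w'
        · exact fun h => hE.XL w' w hqw' hKw' hwq hqw h
        · exact hE.LL w w' hwq hwq' hqw hqw'
    · obtain ⟨l, hl, hql⟩ := hE.Lne
      exact ⟨l, fun e => hql (e ▸ hE.Kq p hp), hl, hE.KL p l hp hl hql⟩
    · obtain ⟨w, hqw, hKw⟩ := hE.Xne
      exact ⟨w, fun e => hKw (e ▸ hp), (H.ne_of_adj hqw).symm, hqw⟩

end HFC
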