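import Pool.Agent.Lib.HFC.Glue2
import Pool.Agent.Lib.HFC.Mg.G002
import Pool.Agent.Lib.HFC.Mg.G006
import Pool.Agent.Lib.HFC.Mg.G001

open Classical
open Pool.Agent.OWF

namespace HFC

variable {α : Type}

theorem DStar.swap {H : SimpleGraph α} {p q : α} (h : DStar H p q) : DStar H q p := by
  refine ⟨h.pq.symm, ?_, ?_⟩
  · intro w h1 h2
    have := h.one w h2 h1
    tauto
  · intro w w' h1 h2 h3 h4
    exact h.ind w w' h2 h1 h4 h3

theorem polyReduces_of_pat [Fintype α] {H : SimpleGraph α} (h : HasPat H) :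
    PolyReduces DominatingSet (HFreeContraction H) := by
  obtain ⟨C, hC, p, ⟨g⟩⟩ := h
  apply polyReduces_of
  obtain ⟨r, hr, hred⟩ := plain_poly p (Fintype.card α)
  refine ⟨r, hr, ?_⟩
  intro n Γ k
  obtain ⟨m, G', h1, ⟨e⟩⟩ := hred n Γ k
  refine ⟨m, G', h1, ?_⟩
  rw [g.reduction Γ k (2 * k + Fintype.card α) le_rfl]
  exact (Contractible.iso_iff e k).symm

theorem polyReduces_of_dstar [Fintype α] {H : SimpleGraph α} {p q : α} (hcard : 6 ≤ Fintype.card α)
    (hs : DStar H p q) (hp : ∃ w, w ≠ p ∧ w ≠ q ∧ H.Adj p w) (hq : ∃ w, w ≠ p ∧ w ≠ q ∧ H.Adj q w) :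
    PolyReduces DominatingSet (HFreeContraction H) := by
  have key : ∀ (p q : α), DStar H p q → (∃ w, w ≠ p ∧ w ≠ q ∧ H.Adj q w) →
      (Finset.univ.filter (fun w => w ≠ p ∧ H.Adj q w)).card ≤
        (Finset.univ.filter (fun w => w ≠ q ∧ H.Adj p w)).card →
      PolyReduces DominatingSet (HFreeContraction H) := by
    intro p q hs hq hab
    obtain ⟨m, hmp, _, hm⟩ := hq
    apply polyReduces_of
    obtain ⟨r, hr, hred⟩ := f2_poly H p q m 1
    refine ⟨r, hr, ?_⟩
    intro n Γ k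
    obtain ⟨N, G', h1, ⟨e⟩⟩ := hred n Γ k
    refine ⟨N, G', h1, ?_⟩
    rw [f2_reduction hs hcard hm hmp hab Γ k (2 * k + 1) le_rfl]
    exact (Contractible.iso_iff e k).symm
  rcases le_total (Finset.univ.filter (fun w => w ≠ p ∧ H.Adj q w)).card
    (Finset.univ.filter (fun w => w ≠ q ∧ H.Adj p w)).card with h | h
  · exact key p q hs hq h
  · refine key q p hs.swap ?_ h
    obtain ⟨w, h1, h2, h3⟩ := hp
    exact ⟨w, h2, h1, h3⟩

/-- Every connected graph with at least six vertices that is not complete. -/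
theorem main [Fintype α] {H : SimpleGraph α} (hcard : 6 ≤ Fintype.card α) (hconn : H.Connected)
    (hnc : H ≠ ⊤) : PolyReduces DominatingSet (HFreeContraction H) := by
  rcases classification hcard hconn hnc with h | ⟨p, q, hs, hp, hq⟩
  · exact polyReduces_of_pat h
  · exact polyReduces_of_dstar hcard hs hp hq

end HFC
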