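import Pool.Agent.Lib.HFC.Tools

open Classical

namespace HFC

/-- kind of the image of a vertex: hub, selector, class `c` of the gadget named `g` -/
inductive Ty : Type
  | hub : Ty
  | sel : Ty
  | gad : ℕ → ℕ → Ty

/-- Boolean tables as bit masks -/
structure Tab where
  m : ℕ
  adj : ℕ
  I : ℕ
  M : ℕ
  B : ℕ
  P : ℕ
  Q : ℕ
  T : Bool

def Tab.a (t : Tab) (i j : ℕ) : Bool := Nat.testBit t.adj (6 * i + j)

/-- pair constraint -/
def Tab.ok (t : Tab) (i j : ℕ) : Ty → Ty → Bool
  | .hub, .hub => false
  | .hub, .sel => t.a i j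
  | .sel, .hub => t.a i j
  | .hub, .gad _ c => t.a i j == Nat.testBit t.B c
  | .gad _ c, .hub => t.a i j == Nat.testBit t.B c
  | .sel, .sel => t.a i j == t.T
  | .sel, .gad _ c => (t.a i j == Nat.testBit t.P c) || (t.a i j == Nat.testBit t.Q c)
  | .gad _ c, .sel => (t.a i j == Nat.testBit t.P c) || (t.a i j == Nat.testBit t.Q c)
  | .gad g c, .gad g' c' => bif g == g' then (!(c == c') && (t.a i j == Nat.testBit t.I (t.m * c + c')))
      else (t.a i j == Nat.testBit t.M (t.m * c + c'))

/-- constraint for a selector `i` and two vertices `j`, `k` -/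
def Tab.ok3 (t : Tab) (i j k : ℕ) : Ty → Ty → Ty → Bool
  | .sel, .gad g c, .gad g' c' => !(g == g') ||
      (((t.a i j == Nat.testBit t.P c) && (t.a i k == Nat.testBit t.P c')) ||
       ((t.a i j == Nat.testBit t.Q c) && (t.a i k == Nat.testBit t.Q c')))
  | _, _, _ => true

/-- the constraints of a new vertex against the list of the old ones -/
def Tab.okAll (t : Tab) (v : ℕ) (tv : Ty) (asg : List (ℕ × Ty)) : Bool :=
  asg.all (fun w => t.ok v w.1 tv w.2) &&
  asg.all (fun w => asg.all (fun w' =>
    t.ok3 v w.1 w'.1 tv w.2 w'.2 && t.ok3 w.1 v w'.1 w.2 tv w'.2))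

/-- candidates for a new vertex -/
def Tab.cands (t : Tab) (v : ℕ) (asg : List (ℕ × Ty)) : List Ty :=
  .hub :: .sel :: (v :: asg.map Prod.fst).flatMap (fun g =>
    bif (g == v) || asg.any (fun w => bif w.1 == g then (match w.2 with
      | .gad g' _ => g' == g
      | _ => false) else false)
    then (List.range t.m).map (fun c => Ty.gad g c) else [])

def Tab.search (t : Tab) : List ℕ → List (ℕ × Ty) → Bool
  | [], _ => true
  | v :: vs, asg => (t.cands v asg).any (fun tv => t.okAll v tv asg && Tab.search t vs ((v, tv) :: asg))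


section sound
variable {V J : Type}

/-- correctness of the tables -/
structure TabOK (t : Tab) (H : SimpleGraph (Fin 6)) (p : Pat (Fin t.m)) : Prop where
  a : ∀ i j : Fin 6, H.Adj i j ↔ t.a i.1 j.1 = true
  I : ∀ c c' : Fin t.m, p.I c c' ↔ Nat.testBit t.I (t.m * c.1 + c'.1) = true
  M : ∀ c c' : Fin t.m, p.M c c' ↔ Nat.testBit t.M (t.m * c.1 + c'.1) = true
  B : ∀ c : Fin t.m, (p.A c ∨ p.P c) ↔ Nat.testBit t.B c.1 = true
  P : ∀ c : Fin t.m, p.P c ↔ Nat.testBit t.P c.1 = true
  Q : ∀ c : Fin t.m, p.Q c ↔ Nat.testBit t.Q c.1 = true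
  T : p.T ↔ t.T = true

theorem beq_of_iff {a b : Bool} {P : Prop} (h1 : P ↔ a = true) (h2 : P ↔ b = true) :
    (a == b) = true := by
  have : a = true ↔ b = true := h1.symm.trans h2
  cases a <;> cases b <;> simp_all

theorem search_sound (t : Tab) {H : SimpleGraph (Fin 6)} {p : Pat (Fin t.m)} (hok : TabOK t H p)
    (hs : t.search [5, 4, 3, 2, 1, 0] [] = false) (rel : V → J → Prop) :
    IsEmpty (H ↪g p.graph (fun c => p.A c ∨ p.P c) rel) := by
  refine ⟨fun f => ?_⟩
  let F : ℕ → SV V J (Fin t.m) := fun i => if h : i < 6 then f ⟨i, h⟩ else .hub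
  have hF : ∀ i (h : i < 6), F i = f ⟨i, h⟩ := fun i h => by simp [F, h]
  have Finj : ∀ i j, i < 6 → j < 6 → i ≠ j → F i ≠ F j := by
    intro i j hi hj hij h
    rw [hF i hi, hF j hj] at h
    have := f.injective h
    simp only [Fin.mk.injEq] at this
    exact hij this
  have Fadj : ∀ i j, i < 6 → j < 6 →
      ((p.graph (fun c => p.A c ∨ p.P c) rel).Adj (F i) (F j) ↔ t.a i j = true) := by
    intro i j hi hj
    rw [hF i hi, hF j hj, f.map_rel_iff]
    exact hok.a ⟨i, hi⟩ ⟨j, hj⟩
  -- representative of a gadget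
  let R : ℕ → ℕ → Prop := fun v w => ∃ j c c', F v = .gad j c ∧ F w = .gad j c'
  let rep : ℕ → ℕ := fun v => Nat.findGreatest (R v) 5
  have Rself : ∀ v j c, F v = .gad j c → R v v := fun v j c h => ⟨j, c, c, h, h⟩
  have Rlt : ∀ v w, R v w → w < 6 := by
    rintro v w ⟨j, c, c', _, h⟩
    by_contra hcon
    simp [F, hcon] at h
  have rep_spec : ∀ v j c, F v = .gad j c → R v (rep v) := by
    intro v j c h
    have hv := Rlt v v (Rself v j c h)
    exact Nat.findGreatest_spec (P := R v) (m := v) (by omega) (Rself v j c h)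
  have rep_ge : ∀ v j c, F v = .gad j c → v ≤ rep v := by
    intro v j c h
    have hv := Rlt v v (Rself v j c h)
    exact Nat.le_findGreatest (P := R v) (by omega) (Rself v j c h)
  have rep_lt : ∀ v, rep v < 6 := by
    intro v
    have : rep v ≤ 5 := Nat.findGreatest_le 5
    omega
  have rep_same : ∀ v w j c c', F v = .gad j c → F w = .gad j c' → rep v = rep w := by
    intro v w j c c' hv hw
    have : R v = R w := by
      funext x
      apply propext
      constructor
      · rintro ⟨j1, c1, c2, h1, h2⟩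
        rw [hv] at h1
        injection h1 with h1 _
        subst h1
        exact ⟨j, c', c2, hw, h2⟩
      · rintro ⟨j1, c1, c2, h1, h2⟩
        rw [hw] at h1
        injection h1 with h1 _
        subst h1
        exact ⟨j, c, c2, hv, h2⟩
    show Nat.findGreatest (R v) 5 = Nat.findGreatest (R w) 5
    simp only [this]
  have rep_eq : ∀ v w j j' c c', F v = .gad j c → F w = .gad j' c' → rep v = rep w → j = j' := by
    intro v w j j' c c' hv hw h
    obtain ⟨j1, c1, c2, h1, h2⟩ := rep_spec v j c hv
    obtain ⟨j3, c3, c4, h3, h4⟩ := rep_spec w j' c' hw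
    rw [hv] at h1
    injection h1 with h1 _
    rw [hw] at h3
    injection h3 with h3 _
    rw [h, h4] at h2
    injection h2 with h2 _
    rw [h1, h3, h2]
  let τ : ℕ → Ty := fun v => match F v with
    | .hub => .hub
    | .sel _ => .sel
    | .gad _ c => .gad (rep v) c.1
  have τhub : ∀ v, F v = .hub → τ v = .hub := fun v h => by simp only [τ, h]
  have τsel : ∀ v s, F v = .sel s → τ v = .sel := fun v s h => by simp only [τ, h]
  have τgad : ∀ v j c, F v = .gad j c → τ v = .gad (rep v) c.1 := fun v j c h => by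
    simp only [τ, h]
  -- pair constraint
  have pair : ∀ v w, v < 6 → w < 6 → v ≠ w → t.ok v w (τ v) (τ w) = true := by
    intro v w hv hw hvw
    have hadj := Fadj v w hv hw
    have hne := Finj v w hv hw hvw
    rcases hFv : F v with _ | s | ⟨j, c⟩ <;> rcases hFw : F w with _ | s' | ⟨j', c'⟩
    · exact absurd (hFv.trans hFw.symm) hne
    · rw [τhub v hFv, τsel w s' hFw]
      rw [hFv, hFw] at hadj
      exact hadj.1 trivial
    · rw [τhub v hFv, τgad w j' c' hFw]
      rw [hFv, hFw] at hadj
      exact beq_of_iff hadj (hok.B c')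
    · rw [τsel v s hFv, τhub w hFw]
      rw [hFv, hFw] at hadj
      exact hadj.1 trivial
    · rw [τsel v s hFv, τsel w s' hFw]
      rw [hFv, hFw] at hadj hne
      refine beq_of_iff hadj ?_
      rw [adj_sel_sel]
      constructor
      · exact fun h => hok.T.1 h.2
      · exact fun h => ⟨fun e => hne (by rw [e]), hok.T.2 h⟩
    · rw [τsel v s hFv, τgad w j' c' hFw]
      rw [hFv, hFw] at hadj
      show ((t.a v w == Nat.testBit t.P c'.1) || (t.a v w == Nat.testBit t.Q c'.1)) = true
      rw [Bool.or_eq_true]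
      by_cases hr : rel s j'
      · left
        refine beq_of_iff hadj ?_
        rw [adj_sel_gad, ← hok.P]
        tauto
      · right
        refine beq_of_iff hadj ?_
        rw [adj_sel_gad, ← hok.Q]
        tauto
    · rw [τgad v j c hFv, τhub w hFw]
      rw [hFv, hFw] at hadj
      exact beq_of_iff hadj (hok.B c)
    · rw [τgad v j c hFv, τsel w s' hFw]
      rw [hFv, hFw] at hadj
      show ((t.a v w == Nat.testBit t.P c.1) || (t.a v w == Nat.testBit t.Q c.1)) = true
      rw [Bool.or_eq_true]
      by_cases hr : rel s' j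
      · left
        refine beq_of_iff hadj ?_
        rw [adj_gad_sel, ← hok.P]
        tauto
      · right
        refine beq_of_iff hadj ?_
        rw [adj_gad_sel, ← hok.Q]
        tauto
    · rw [τgad v j c hFv, τgad w j' c' hFw]
      rw [hFv, hFw] at hadj hne
      show (bif rep v == rep w then
        (!(c.1 == c'.1) && (t.a v w == Nat.testBit t.I (t.m * c.1 + c'.1)))
        else (t.a v w == Nat.testBit t.M (t.m * c.1 + c'.1))) = true
      by_cases hjj : j = j'
      · have h1 : (rep v == rep w) = true := by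
          rw [beq_iff_eq]
          subst hjj
          exact rep_same v w j c c' hFv hFw
        rw [h1, cond_true, Bool.and_eq_true]
        constructor
        · rw [Bool.not_eq_true', beq_eq_false_iff_ne]
          intro e
          exact hne (by rw [hjj, Fin.ext e])
        · refine beq_of_iff hadj ?_
          rw [adj_gad_gad, ← hok.I]
          tauto
      · have h1 : (rep v == rep w) = false := by
          rw [beq_eq_false_iff_ne]
          intro e
          exact hjj (rep_eq v w j j' c c' hFv hFw e)
        rw [h1, cond_false]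
        refine beq_of_iff hadj ?_
        rw [adj_gad_gad, ← hok.M]
        tauto
  have triple : ∀ v w x, v < 6 → w < 6 → x < 6 → t.ok3 v w x (τ v) (τ w) (τ x) = true := by
    intro v w x hv hw hx
    rcases hFv : F v with _ | s | ⟨j, c⟩
    · rw [τhub v hFv]; rfl
    · rcases hFw : F w with _ | s' | ⟨j', c'⟩
      · rw [τsel v s hFv, τhub w hFw]; rfl
      · rw [τsel v s hFv, τsel w s' hFw]; rfl
      · rcases hFx : F x with _ | s'' | ⟨j'', c''⟩
        · rw [τsel v s hFv, τgad w j' c' hFw, τhub x hFx]; rfl
        · rw [τsel v s hFv, τgad w j' c' hFw, τsel x s'' hFx]; rfl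
        · rw [τsel v s hFv, τgad w j' c' hFw, τgad x j'' c'' hFx]
          show (!(rep w == rep x) ||
            (((t.a v w == Nat.testBit t.P c'.1) && (t.a v x == Nat.testBit t.P c''.1)) ||
             ((t.a v w == Nat.testBit t.Q c'.1) && (t.a v x == Nat.testBit t.Q c''.1)))) = true
          by_cases hrr : rep w = rep x
          · have hjj := rep_eq w x j' j'' c' c'' hFw hFx hrr
            subst hjj
            have h1 := Fadj v w hv hw
            have h2 := Fadj v x hv hx
            rw [hFv, hFw] at h1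
            rw [hFv, hFx] at h2
            rw [Bool.or_eq_true, Bool.or_eq_true, Bool.and_eq_true, Bool.and_eq_true]
            right
            by_cases hr : rel s j'
            · left
              constructor
              · refine beq_of_iff h1 ?_
                rw [adj_sel_gad, ← hok.P]; tauto
              · refine beq_of_iff h2 ?_
                rw [adj_sel_gad, ← hok.P]; tauto
            · right
              constructor
              · refine beq_of_iff h1 ?_
                rw [adj_sel_gad, ← hok.Q]; tauto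
              · refine beq_of_iff h2 ?_
                rw [adj_sel_gad, ← hok.Q]; tauto
          · have : (rep w == rep x) = false := by rw [beq_eq_false_iff_ne]; exact hrr
            rw [this]; rfl
    · rw [τgad v j c hFv]; rfl
  have main : ∀ k, k ≤ 6 → t.search ((List.range k).reverse)
      ((List.range' k (6 - k)).map (fun i => (i, τ i))) = true := by
    intro k
    induction k with
    | zero => intro _; rfl
    | succ k ih =>
      intro hk
      have hrev : (List.range (k + 1)).reverse = k :: (List.range k).reverse := by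
        rw [List.range_succ, List.reverse_append]; rfl
      rw [hrev]
      set asg := (List.range' (k + 1) (6 - (k + 1))).map (fun i => (i, τ i)) with hasg
      have hmem : ∀ w, w ∈ asg ↔ ∃ i, k < i ∧ i < 6 ∧ w = (i, τ i) := by
        intro w
        rw [hasg, List.mem_map]
        constructor
        · rintro ⟨i, hi, rfl⟩
          rw [List.mem_range'_1] at hi
          exact ⟨i, by omega, by omega, rfl⟩
        · rintro ⟨i, h1, h2, rfl⟩
          exact ⟨i, by rw [List.mem_range'_1]; omega, rfl⟩
      show (t.cands k asg).any (fun tv => t.okAll k tv asg &&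
        Tab.search t ((List.range k).reverse) ((k, tv) :: asg)) = true
      rw [List.any_eq_true]
      refine ⟨τ k, ?_, ?_⟩
      · -- candidate
        unfold Tab.cands
        rcases hFk : F k with _ | s | ⟨j, c⟩
        · rw [τhub k hFk]; simp
        · rw [τsel k s hFk]; simp
        · rw [τgad k j c hFk]
          apply List.mem_cons_of_mem
          apply List.mem_cons_of_mem
          rw [List.mem_flatMap]
          have hc : Ty.gad (rep k) c.1 ∈ (List.range t.m).map (fun c => Ty.gad (rep k) c) :=
            List.mem_map.2 ⟨c.1, List.mem_range.2 c.2, rfl⟩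
          by_cases hrk : rep k = k
          · refine ⟨k, List.mem_cons_self, ?_⟩
            rw [hrk] at hc ⊢
            simp
          · have hlt : k < rep k := by
              have := rep_ge k j c hFk
              omega
            obtain ⟨j1, c1, c2, h1, h2⟩ := rep_spec k j c hFk
            have hrr : rep (rep k) = rep k := by
              rw [hFk] at h1
              injection h1 with h1 _
              subst h1
              exact rep_same (rep k) k j c2 c h2 hFk
            have hm : (rep k, τ (rep k)) ∈ asg := (hmem _).2 ⟨rep k, hlt, rep_lt k, rfl⟩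
            refine ⟨rep k, ?_, ?_⟩
            · apply List.mem_cons_of_mem
              exact List.mem_map.2 ⟨_, hm, rfl⟩
            · have hcond : ((rep k == k) || asg.any (fun w => bif w.1 == rep k then (match w.2 with
                | .gad g' _ => g' == rep k
                | _ => false) else false)) = true := by
                rw [Bool.or_eq_true]
                right
                rw [List.any_eq_true]
                refine ⟨_, hm, ?_⟩
                rw [τgad (rep k) j1 c2 h2, hrr]
                simp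
              rw [hcond, cond_true]
              exact hc
      · rw [Bool.and_eq_true]
        constructor
        · unfold Tab.okAll
          rw [Bool.and_eq_true, List.all_eq_true, List.all_eq_true]
          constructor
          · intro w hw
            obtain ⟨i, h1, h2, rfl⟩ := (hmem w).1 hw
            exact pair k i (by omega) h2 (by omega)
          · intro w hw
            rw [List.all_eq_true]
            intro w' hw'
            obtain ⟨i, h1, h2, rfl⟩ := (hmem w).1 hw
            obtain ⟨i', h1', h2', rfl⟩ := (hmem w').1 hw'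
            rw [Bool.and_eq_true]
            exact ⟨triple k i i' (by omega) h2 h2', triple i k i' h2 (by omega) h2'⟩
        · have hk' : (k, τ k) :: asg = (List.range' k (6 - k)).map (fun i => (i, τ i)) := by
            have : 6 - k = (6 - (k + 1)) + 1 := by omega
            rw [this, List.range'_succ, List.map_cons]
          rw [hk']
          exact ih (by omega)
  have := main 6 le_rfl
  have h2 : t.search [5, 4, 3, 2, 1, 0] [] = true := this
  rw [hs] at h2
  cases h2

end sound

end HFC

namespace HFC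

variable {α V J : Type}

/-! ### Transport along isomorphisms -/

theorem HasPat.of_iso {α β : Type} [Fintype α] [Fintype β] {H : SimpleGraph α} {H' : SimpleGraph β}
    (e : H ≃g H') (h : HasPat H) : HasPat H' := by
  obtain ⟨C, hC, p, ⟨g⟩⟩ := h
  have hadj : ∀ a b : β, H.Adj (e.symm a) (e.symm b) ↔ H'.Adj a b := fun a b =>
    e.symm.map_rel_iff
  have hadj2 : ∀ a b : α, H'.Adj (e a) (e b) ↔ H.Adj a b := fun a b => e.map_rel_iff
  have hne : ∀ d : {d : β // d ≠ e g.x}, e.symm d.1 ≠ g.x := by
    intro d h
    apply d.2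
    have := congrArg e h
    simpa using this
  refine ⟨C, hC, p, ⟨?_⟩⟩
  refine
    { x := e g.x
      δ := fun d => g.δ ⟨e.symm d.1, hne d⟩
      inj := ?_
      hI := ?_
      hA := ?_
      hQ := ?_
      hQB := g.hQB
      penal := ?_
      free := ?_ }
  · intro d d' h
    have := g.inj h
    simp only [Subtype.mk.injEq, EmbeddingLike.apply_eq_iff_eq] at this
    exact Subtype.ext this
  · intro d d'
    rw [g.hI]
    exact hadj _ _
  · intro d
    rw [g.hA, ← hadj2]
    simp
  · intro d h
    have := g.hQ _ h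
    rw [← hadj2] at this
    simpa using this
  · intro t d h1 h2
    have h3 : ¬ H.Adj g.x (⟨e.symm d.1, hne d⟩ : {d : α // d ≠ g.x}).1 := by
      intro h
      apply h2
      rw [← hadj2] at h
      simpa using h
    obtain ⟨u, f, h4, h5⟩ := g.penal t ⟨e.symm d.1, hne d⟩ h1 h3
    -- relabel the selectors
    let φ : SV α α C → SV β β C := fun s => match s with
      | .hub => .hub
      | .sel v => .sel (e v)
      | .gad j c => .gad (e j) c
    have φinj : Function.Injective φ := by
      intro a b hab
      rcases a with _ | v | ⟨j, c⟩ <;> rcases b with _ | v' | ⟨j', c'⟩ <;>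
        simp only [φ, SV.sel.injEq, SV.gad.injEq, EmbeddingLike.apply_eq_iff_eq, reduceCtorEq] at hab ⊢
      · exact hab
      · exact hab
    have φadj : ∀ a b, (p.graph (fun c => p.A c ∨ p.M t c) (fun (_ : β) (_ : β) => False)).Adj
        (φ a) (φ b) ↔ (p.graph (fun c => p.A c ∨ p.M t c) (fun (_ : α) (_ : α) => False)).Adj a b := by
      intro a b
      rcases a with _ | v | ⟨j, c⟩ <;> rcases b with _ | v' | ⟨j', c'⟩
      · exact Iff.rfl
      · exact Iff.rfl
      · exact Iff.rfl
      · exact Iff.rfl
      · show (e v ≠ e v' ∧ p.T) ↔ (v ≠ v' ∧ p.T)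
        rw [Ne, EmbeddingLike.apply_eq_iff_eq]
      · exact Iff.rfl
      · exact Iff.rfl
      · exact Iff.rfl
      · show ((e j = e j' ∧ p.I c c') ∨ (e j ≠ e j' ∧ p.M c c')) ↔
          ((j = j' ∧ p.I c c') ∨ (j ≠ j' ∧ p.M c c'))
        rw [Ne, EmbeddingLike.apply_eq_iff_eq]
    refine ⟨e u, ⟨⟨fun b => φ (f (e.symm b)), ?_⟩, ?_⟩, ?_, ?_⟩
    · intro a b hab
      exact e.symm.injective (f.injective (φinj hab))
    · intro a b
      show (p.graph (fun c => p.A c ∨ p.M t c) (fun (_ : β) (_ : β) => False)).Adj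
        (φ (f (e.symm a))) (φ (f (e.symm b))) ↔ H'.Adj a b
      rw [φadj]
      exact f.map_rel_iff.trans (hadj a b)
    · intro w hw
      have : e.symm w ≠ u := by
        intro h
        apply hw
        rw [← h]
        simp
      have := h4 _ this
      rw [← hadj2] at this
      simpa using this
    · show φ (f (e.symm (e u))) = .hub
      have : e.symm (e u) = u := by simp
      rw [this, h5]
  · intro V J rel
    refine ⟨fun f => ?_⟩
    exact (g.free V J rel).false (e.toEmbedding.trans f)

/-! ### Patterns from bit masks -/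

/-- Bool version of the adjacency of the scheme graph with empty domination relation -/
def Tab.badj (t : Tab) (Bb : Fin t.m → Bool) :
    SV (Fin 6) (Fin 6) (Fin t.m) → SV (Fin 6) (Fin 6) (Fin t.m) → Bool
  | .hub, .hub => false
  | .hub, .sel _ => true
  | .hub, .gad _ c => Bb c
  | .sel _, .hub => true
  | .sel v, .sel v' => (!(v.1 == v'.1)) && t.T
  | .sel _, .gad _ c => Nat.testBit t.Q c.1
  | .gad _ c, .hub => Bb c
  | .gad _ c, .sel _ => Nat.testBit t.Q c.1
  | .gad j c, .gad j' c' => bif j.1 == j'.1 then Nat.testBit t.I (t.m * c.1 + c'.1)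
      else Nat.testBit t.M (t.m * c.1 + c'.1)

/-- a code number of a vertex -/
def Tab.code (t : Tab) : SV (Fin 6) (Fin 6) (Fin t.m) → ℕ
  | .hub => 0
  | .sel v => 1 + v.1
  | .gad j c => 7 + (6 * c.1 + j.1)

lemma Tab.code_inj (t : Tab) : Function.Injective t.code := by
  intro a b h
  rcases a with _ | v | ⟨j, c⟩ <;> rcases b with _ | v' | ⟨j', c'⟩ <;>
    simp only [Tab.code] at h
  · rfl
  · omega
  · omega
  · omega
  · congr 1
    exact Fin.ext (by omega)
  · have := v.2; omega
  · omega
  · have := v'.2; omega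
  · have h1 := j.2
    have h2 := j'.2
    have h3 : j = j' := Fin.ext (by omega)
    have h4 : c = c' := Fin.ext (by omega)
    rw [h3, h4]

/-- decoding of vertices -/
def Tab.dec (t : Tab) (hm : 0 < t.m) : ℕ × ℕ × ℕ → SV (Fin 6) (Fin 6) (Fin t.m)
  | (0, _, _) => .hub
  | (1, g, _) => .sel ⟨g % 6, Nat.mod_lt _ (by norm_num)⟩
  | (_, g, c) => .gad ⟨g % 6, Nat.mod_lt _ (by norm_num)⟩ ⟨c % t.m, Nat.mod_lt _ hm⟩

/-- the pattern of a table -/
def Tab.pat (t : Tab) (Am : ℕ)
    (hIs : ∀ a b : Fin t.m, Nat.testBit t.I (t.m * a.1 + b.1) = true →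
      Nat.testBit t.I (t.m * b.1 + a.1) = true)
    (hIi : ∀ a : Fin t.m, Nat.testBit t.I (t.m * a.1 + a.1) = false)
    (hMs : ∀ a b : Fin t.m, Nat.testBit t.M (t.m * a.1 + b.1) = true →
      Nat.testBit t.M (t.m * b.1 + a.1) = true) : Pat (Fin t.m) where
  I a b := Nat.testBit t.I (t.m * a.1 + b.1) = true
  M a b := Nat.testBit t.M (t.m * a.1 + b.1) = true
  A c := Nat.testBit Am c.1 = true
  P c := Nat.testBit t.P c.1 = true
  Q c := Nat.testBit t.Q c.1 = true
  T := t.T = true
  I_symm := hIs
  I_irrefl a h := by rw [hIi a] at h; cases h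
  M_symm := hMs

theorem tab_hasPat (t : Tab) (Am : ℕ) (H : SimpleGraph (Fin 6)) (x : Fin 6) (hm : 0 < t.m)
    (dl : ℕ → ℕ) (F : ℕ → ℕ → ℕ × ℕ × ℕ)
    (hH : ∀ i j : Fin 6, H.Adj i j ↔ t.a i.1 j.1 = true)
    (hIs : ∀ a b : Fin t.m, Nat.testBit t.I (t.m * a.1 + b.1) = true →
      Nat.testBit t.I (t.m * b.1 + a.1) = true)
    (hIi : ∀ a : Fin t.m, Nat.testBit t.I (t.m * a.1 + a.1) = false)
    (hMs : ∀ a b : Fin t.m, Nat.testBit t.M (t.m * a.1 + b.1) = true →
      Nat.testBit t.M (t.m * b.1 + a.1) = true)
    (hdl : ∀ i : Fin 6, dl i.1 < t.m)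
    (inj : ∀ i j : Fin 6, i ≠ x → j ≠ x → dl i.1 = dl j.1 → i = j)
    (hI : ∀ i j : Fin 6, i ≠ x → j ≠ x → Nat.testBit t.I (t.m * dl i.1 + dl j.1) = t.a i.1 j.1)
    (hA : ∀ i : Fin 6, i ≠ x → Nat.testBit Am (dl i.1) = t.a x.1 i.1)
    (hQ : ∀ i : Fin 6, i ≠ x → Nat.testBit t.Q (dl i.1) = true → t.a x.1 i.1 = true)
    (hQB : ∀ c : Fin t.m, Nat.testBit t.Q c.1 = true → (Nat.testBit Am c.1 || Nat.testBit t.P c.1) = true)
    (hBm : ∀ c : Fin t.m, Nat.testBit t.B c.1 = (Nat.testBit Am c.1 || Nat.testBit t.P c.1))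
    (hu : ∀ w : Fin 6, w ≠ 5 → t.a 5 w.1 = true)
    (penal : ∀ (s : Fin t.m) (d : Fin 6), d ≠ x → Nat.testBit t.M (t.m * s.1 + dl d.1) = true →
      t.a x.1 d.1 = false →
      (∀ i j : Fin 6, t.code (t.dec hm (F s.1 i.1)) = t.code (t.dec hm (F s.1 j.1)) → i = j) ∧
      (∀ i j : Fin 6, t.badj (fun c => Nat.testBit Am c.1 || Nat.testBit t.M (t.m * s.1 + c.1))
        (t.dec hm (F s.1 i.1)) (t.dec hm (F s.1 j.1)) = t.a i.1 j.1) ∧
      t.code (t.dec hm (F s.1 5)) = 0)
    (hs : t.search [5, 4, 3, 2, 1, 0] [] = false) : HasPat H := by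
  refine ⟨Fin t.m, inferInstance, t.pat Am hIs hIi hMs, ⟨?_⟩⟩
  refine
    { x := x
      δ := fun d => ⟨dl d.1.1, hdl d.1⟩
      inj := ?_
      hI := ?_
      hA := ?_
      hQ := ?_
      hQB := ?_
      penal := ?_
      free := ?_ }
  · intro d d' h
    simp only [Fin.mk.injEq] at h
    exact Subtype.ext (inj _ _ d.2 d'.2 h)
  · intro d d'
    rw [hH]
    show Nat.testBit t.I (t.m * dl d.1.1 + dl d'.1.1) = true ↔ _
    rw [hI _ _ d.2 d'.2]
  · intro d
    rw [hH]
    show Nat.testBit Am (dl d.1.1) = true ↔ _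
    rw [hA _ d.2]
  · intro d h
    rw [hH]
    exact hQ _ d.2 h
  · intro c h
    have := hQB c h
    rw [Bool.or_eq_true] at this
    exact this
  · intro s d h1 h2
    rw [hH] at h2
    have h2' : t.a x.1 d.1.1 = false := by
      cases h : t.a x.1 d.1.1
      · rfl
      · exact absurd h h2
    obtain ⟨e1, e2, e3⟩ := penal s d.1 d.2 h1 h2'
    refine ⟨5, ⟨⟨fun i => t.dec hm (F s.1 i.1), ?_⟩, ?_⟩, ?_, ?_⟩
    · intro i j hij
      exact e1 i j (by simp only at hij; rw [hij])
    · intro i j
      rw [hH, ← e2 i j]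
      show ((t.pat Am hIs hIi hMs).graph _ (fun (_ : Fin 6) (_ : Fin 6) => False)).Adj
        (t.dec hm (F s.1 i.1)) (t.dec hm (F s.1 j.1)) ↔ _
      generalize t.dec hm (F s.1 i.1) = a
      generalize t.dec hm (F s.1 j.1) = b
      rcases a with _ | v | ⟨j, c⟩ <;> rcases b with _ | v' | ⟨j', c'⟩
      · simp [Tab.badj]
      · simp [Tab.badj]
      · show (Nat.testBit Am c'.1 = true ∨ Nat.testBit t.M (t.m * s.1 + c'.1) = true) ↔
          (Nat.testBit Am c'.1 || Nat.testBit t.M (t.m * s.1 + c'.1)) = true
        rw [Bool.or_eq_true]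
      · simp [Tab.badj]
      · show (v ≠ v' ∧ t.T = true) ↔ ((!(v.1 == v'.1)) && t.T) = true
        rw [Bool.and_eq_true, Bool.not_eq_true', beq_eq_false_iff_ne, Ne, Ne, Fin.ext_iff]
      · show ((False ∧ _) ∨ (¬ False ∧ Nat.testBit t.Q c'.1 = true)) ↔
          Nat.testBit t.Q c'.1 = true
        tauto
      · show (Nat.testBit Am c.1 = true ∨ Nat.testBit t.M (t.m * s.1 + c.1) = true) ↔
          (Nat.testBit Am c.1 || Nat.testBit t.M (t.m * s.1 + c.1)) = true
        rw [Bool.or_eq_true]
      · show ((False ∧ _) ∨ (¬ False ∧ Nat.testBit t.Q c.1 = true)) ↔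
          Nat.testBit t.Q c.1 = true
        tauto
      · show ((j = j' ∧ Nat.testBit t.I (t.m * c.1 + c'.1) = true) ∨
          (j ≠ j' ∧ Nat.testBit t.M (t.m * c.1 + c'.1) = true)) ↔
          (bif j.1 == j'.1 then Nat.testBit t.I (t.m * c.1 + c'.1)
            else Nat.testBit t.M (t.m * c.1 + c'.1)) = true
        by_cases hjj : j = j'
        · subst hjj
          simp
        · have : (j.1 == j'.1) = false := by
            rw [beq_eq_false_iff_ne]
            exact fun e => hjj (Fin.ext e)
          rw [this, cond_false]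
          tauto
    · intro w hw
      rw [hH]
      exact hu w hw
    · show t.dec hm (F s.1 5) = .hub
      exact t.code_inj e3
  · intro V J rel
    refine search_sound t ?_ hs rel
    exact
      { a := hH
        I := fun _ _ => Iff.rfl
        M := fun _ _ => Iff.rfl
        B := fun c => by
          rw [hBm c, Bool.or_eq_true]
          exact Iff.rfl
        P := fun _ => Iff.rfl
        Q := fun _ => Iff.rfl
        T := Iff.rfl }

/-! ### The three graphs -/

/-- graph on six vertices from an adjacency table -/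
def maskG (n : ℕ) (h1 : ∀ i j : Fin 6, Nat.testBit n (6 * i.1 + j.1) = true →
      Nat.testBit n (6 * j.1 + i.1) = true)
    (h2 : ∀ i : Fin 6, Nat.testBit n (6 * i.1 + i.1) = false) : SimpleGraph (Fin 6) where
  Adj i j := Nat.testBit n (6 * i.1 + j.1) = true
  symm := ⟨fun i j h => h1 i j h⟩
  loopless := ⟨fun i h => by rw [h2 i] at h; cases h⟩

/-- table of the first graph -/
def t21 : Tab := ⟨6, 34070793256, 11003338260, 353488917, 57, 1, 0, true⟩
/-- table of the second graph -/
def tP4 : Tab := ⟨5, 34004438048, 16411280, 24403703, 25, 9, 8, true⟩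
/-- table of the third graph -/
def tC2 : Tab := ⟨6, 34088389680, 2405281560, 371287424, 60, 12, 8, true⟩

def G21 : SimpleGraph (Fin 6) := maskG 34070793256 (by decide +kernel) (by decide +kernel)
def GP4 : SimpleGraph (Fin 6) := maskG 34004438048 (by decide +kernel) (by decide +kernel)
def GC2 : SimpleGraph (Fin 6) := maskG 34088389680 (by decide +kernel) (by decide +kernel)

theorem G21_adj (i j : Fin 6) : G21.Adj i j ↔ (i, j) ∈ ([(0,3),(3,0),(0,5),(5,0),(1,4),(4,1),(1,5),(5,1),(2,4),(4,2),(2,5),(5,2),(3,4),(4,3),(3,5),(5,3),(4,5),(5,4)] : List (Fin 6 × Fin 6)) := by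
  show Nat.testBit 34070793256 (6 * i.1 + j.1) = true ↔ _
  revert i j
  decide +kernel

theorem GP4_adj (i j : Fin 6) : GP4.Adj i j ↔ (i, j) ∈ ([(0,5),(5,0),(1,4),(4,1),(1,5),(5,1),(2,3),(3,2),(2,5),(5,2),(3,4),(4,3),(3,5),(5,3),(4,5),(5,4)] : List (Fin 6 × Fin 6)) := by
  show Nat.testBit 34004438048 (6 * i.1 + j.1) = true ↔ _
  revert i j
  decide +kernel

theorem GC2_adj (i j : Fin 6) : GC2.Adj i j ↔ (i, j) ∈ ([(0,4),(4,0),(0,5),(5,0),(1,4),(4,1),(1,5),(5,1),(2,3),(3,2),(2,4),(4,2),(2,5),(5,2),(3,4),(4,3),(3,5),(5,3),(4,5),(5,4)] : List (Fin 6 × Fin 6)) := by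
  show Nat.testBit 34088389680 (6 * i.1 + j.1) = true ↔ _
  revert i j
  decide +kernel

/-- class table when the deleted vertex is `1` -/
def dl1 : ℕ → ℕ
  | 0 => 0
  | n + 1 => n

/-- class table when the deleted vertex is `0` -/
def dl0 (n : ℕ) : ℕ := n - 1

/-- the penalty embeddings of the first graph; classes `0 2 3 4 5 6` are `0 1 2 3 4 5` -/
def F21 (s i : ℕ) : ℕ × ℕ × ℕ :=
  bif s == 3 then (match i with
    | 0 => (2, 0, 5)
    | 1 => (2, 1, 3)
    | 2 => (2, 2, 3)
    | 3 => (2, 0, 3)
    | 4 => (2, 0, 2)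
    | _ => (0, 0, 0))
  else (match i with
    | 0 => (2, 0, 5)
    | 1 => (2, 0, 0)
    | 2 => (2, 1, 3)
    | 3 => (2, 0, 3)
    | 4 => (2, 0, 2)
    | _ => (0, 0, 0))

/-- the penalty embeddings of the second graph; classes `0 2 3 4 5` are `0 1 2 3 4` -/
def FP4 (_ i : ℕ) : ℕ × ℕ × ℕ := match i with
    | 0 => (2, 0, 0)
    | 1 => (1, 0, 0)
    | 2 => (2, 0, 1)
    | 3 => (2, 0, 2)
    | 4 => (2, 0, 3)
    | _ => (0, 0, 0)

/-- the penalty embeddings of the third graph; classes `1 .. 6` are `0 .. 5` -/
def FC2 (_ i : ℕ) : ℕ × ℕ × ℕ := match i with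
    | 0 => (2, 0, 3)
    | 1 => (2, 0, 5)
    | 2 => (2, 1, 1)
    | 3 => (2, 1, 2)
    | 4 => (2, 0, 1)
    | _ => (0, 0, 0)

theorem hasPat_G21 : HasPat G21 :=
  tab_hasPat t21 56 G21 1 (by decide +kernel) dl1 F21 (fun _ _ => Iff.rfl)
    (by decide +kernel) (by decide +kernel) (by decide +kernel) (by decide +kernel)
    (by decide +kernel) (by decide +kernel) (by decide +kernel) (by decide +kernel)
    (by decide +kernel) (by decide +kernel) (by decide +kernel) (by decide +kernel)
    (by decide +kernel)

theorem hasPat_GP4 : HasPat GP4 :=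
  tab_hasPat tP4 24 GP4 1 (by decide +kernel) dl1 FP4 (fun _ _ => Iff.rfl)
    (by decide +kernel) (by decide +kernel) (by decide +kernel) (by decide +kernel)
    (by decide +kernel) (by decide +kernel) (by decide +kernel) (by decide +kernel)
    (by decide +kernel) (by decide +kernel) (by decide +kernel) (by decide +kernel)
    (by decide +kernel)

theorem hasPat_GC2 : HasPat GC2 :=
  tab_hasPat tC2 56 GC2 0 (by decide +kernel) dl0 FC2 (fun _ _ => Iff.rfl)
    (by decide +kernel) (by decide +kernel) (by decide +kernel) (by decide +kernel)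
    (by decide +kernel) (by decide +kernel) (by decide +kernel) (by decide +kernel)
    (by decide +kernel) (by decide +kernel) (by decide +kernel) (by decide +kernel)
    (by decide +kernel)

end HFC
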